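import Pool.Agent.Lib.MP_392c14_co.Ev.PA.B0
import Pool.Agent.Lib.MP_392c14_co.Ev.PA.B192
import Pool.Agent.Lib.MP_392c14_co.Ev.PA.B220
import Pool.Agent.Lib.MP_392c14_co.Ev.PA.B480
import Pool.Agent.Lib.MP_392c14_co.Ev.PA.B512
import Pool.Agent.Lib.MP_392c14_co.Ev.PA.B704
import Pool.Agent.Lib.MP_392c14_co.Ev.PA.B768
import Pool.Agent.Lib.MP_392c14_co.Ev.PA.B769
import Pool.Agent.Lib.MP_392c14_co.Ev.PA.B788
import Pool.Agent.Lib.MP_392c14_co.Ev.PA.B896
import Pool.Agent.Lib.MP_392c14_co.Ev.PA.B897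
import Pool.Agent.Lib.MP_392c14_co.Ev.PA.TabOK
set_option autoImplicit false
set_option maxRecDepth 1000000
set_option linter.all false

namespace K4m.Ev.PA

noncomputable def MF (t : Nat) : List Nat := (Bool.rec (Bool.rec (Bool.rec (Bool.rec (Bool.rec (Bool.rec (Bool.rec (Bool.rec (Bool.rec (Bool.rec (Bool.rec [] M897 (Nat.beq t 897)) M896 (Nat.beq t 896)) M788 (Nat.beq t 788)) M769 (Nat.beq t 769)) M768 (Nat.beq t 768)) M704 (Nat.beq t 704)) M512 (Nat.beq t 512)) M480 (Nat.beq t 480)) M220 (Nat.beq t 220)) M192 (Nat.beq t 192)) M0 (Nat.beq t 0))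

theorem data5 : Data5 72 1073741824 tabQ gtF baseF numF MF where
  rng := rngOK
  blk := by
    intro τ hτ
    simp only [g5, List.mem_cons, List.not_mem_nil, or_false] at hτ
    rcases hτ with rfl | rfl | rfl | rfl | rfl | rfl | rfl | rfl | rfl | rfl | rfl
    · exact blk0
    · exact blk192
    · exact blk220
    · exact blk480
    · exact blk512
    · exact blk704
    · exact blk768
    · exact blk769
    · exact blk788
    · exact blk896
    · exact blk897
end K4m.Ev.PA
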