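import Pool.Agent.Lib.MP_392c14_co.Ev.PA.E0
import Pool.Agent.Lib.MP_392c14_co.Ev.PA.E1
import Pool.Agent.Lib.MP_392c14_co.Ev.PA.E2
import Pool.Agent.Lib.MP_392c14_co.Ev.PA.E3
import Pool.Agent.Lib.MP_392c14_co.Ev.PA.E4
import Pool.Agent.Lib.MP_392c14_co.Ev.PA.E5
import Pool.Agent.Lib.MP_392c14_co.Ev.PA.E6
import Pool.Agent.Lib.MP_392c14_co.Ev.PA.E7
import Pool.Agent.Lib.MP_392c14_co.Ev.PA.E8
import Pool.Agent.Lib.MP_392c14_co.Ev.PA.E9
import Pool.Agent.Lib.MP_392c14_co.Ev.PA.E10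
import Pool.Agent.Lib.MP_392c14_co.Ev.PA.E11
import Pool.Agent.Lib.MP_392c14_co.Ev.PA.E12
import Pool.Agent.Lib.MP_392c14_co.Ev.PA.E13
import Pool.Agent.Lib.MP_392c14_co.Ev.PA.E14
import Pool.Agent.Lib.MP_392c14_co.Ev.PA.E15
import Pool.Agent.Lib.MP_392c14_co.Ev.PA.E16
import Pool.Agent.Lib.MP_392c14_co.Ev.PA.Data5
import Pool.Agent.Lib.MP_392c14_co.Ev.PA.B3
import Pool.Agent.Lib.MP_392c14_co.Ev.PA.TabOK
import Pool.Agent.Lib.MP_392c14_co.Ev.PlanA
set_option autoImplicit false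
set_option maxRecDepth 1000000
set_option linter.all false

namespace K4m.Ev.PA

noncomputable def cert : Cert where
  W := 72
  Q := tabQ
  gt := gtF
  tab := tabC
  W3 := 72
  I3 := tI3
  Q3 := tabQ3
  cl := cutL
  Wm := 80
  Tm := tMu
  a5 := 1
  a3 := 1

theorem cert_good : cert.Good where
  d5 := ⟨_, _, _, _, data5⟩
  tab := tabOK
  d3 := ⟨_, _, _, _, _, data3⟩
  s3 := sym3
  cuts := cutL_good
  dg := symMu

theorem test_eq (m : ℕ) : cert.test 28572 100000 6485302710361778590 1 3 7566036406477508928 22698131394197640816 (fun m => 144 * 4503599627370496 * popc 35 m 0) (fun _ => 0) m = testL m := by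
  have hp72 : (2 : ℕ) ^ (72 - 1) = 2361183241434822606848 := by norm_num
  have hf72 : (2 : ℕ) ^ 72 = 4722366482869645213696 := by norm_num
  have hp80 : (2 : ℕ) ^ (80 - 1) = 604462909807314587353088 := by norm_num
  have hf80 : (2 : ℕ) ^ 80 = 1208925819614629174706176 := by norm_num
  show evalR 72 (2 ^ 72) tabQ tabC 72 (2 ^ 72) tI3 tabQ3 cutL 80 (2 ^ 80) tMu (2 ^ (80 - 1))
    masks5 masks3 masksC masksD (force (fun pp => force (fun pn => chkR 1 1 (2 ^ (72 - 1))
      (2 ^ (72 - 1)) (2 ^ (80 - 1)) 28572 100000 6485302710361778590 1 3 7566036406477508928 22698131394197640816 pp pn) ((fun _ => 0) m)) ((fun m => 144 * 4503599627370496 * popc 35 m 0) m)) m = _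
  unfold testL
  rw [masks3L_eq, masksCL_eq, masksDL_eq, hp72, hf72, hp80, hf80]

theorem all_ok : ∀ m ∈ reps, testL m = true := by
  intro m hm
  unfold reps at hm
  simp only [List.mem_append] at hm
  rcases hm with hm | hm | hm | hm | hm | hm | hm | hm | hm | hm | hm | hm | hm | hm | hm | hm | hm
  · exact e0 m hm
  · exact e1 m hm
  · exact e2 m hm
  · exact e3 m hm
  · exact e4 m hm
  · exact e5 m hm
  · exact e6 m hm
  · exact e7 m hm
  · exact e8 m hm
  · exact e9 m hm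
  · exact e10 m hm
  · exact e11 m hm
  · exact e12 m hm
  · exact e13 m hm
  · exact e14 m hm
  · exact e15 m hm
  · exact e16 m hm


theorem checked : ∀ m ∈ reps, cert.test 28572 100000 6485302710361778590 1 3 7566036406477508928 22698131394197640816 (fun m => 144 * 4503599627370496 * popc 35 m 0) (fun _ => 0) m = true := by
  intro m hm
  rw [test_eq]
  exact all_ok m hm

end K4m.Ev.PA
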