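import Pool.Agent.Lib.MP_392c14_co.Ev.Cut
import Pool.Agent.Lib.MP_392c14_co.Ev.Fin
import Pool.Agent.Lib.MP_392c14_co.Ev.ChkF
set_option autoImplicit false
set_option maxRecDepth 1000000
set_option linter.all false

namespace K4m.Ev.PA

noncomputable def cutL : CL := (.cons T220 381954930459310656 [220] (.cons T72 965672964780873 [72, 264, 520] .nil))

theorem cutL_good : cutL.Good := ⟨sym220, sym72, trivial⟩

end K4m.Ev.PA
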