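import Pool.Agent.Lib.MP_392c14_co.Ev.PA.TestL
import Pool.Agent.Lib.MP_392c14_co.Ev.Psd
import Pool.Agent.Lib.MP_392c14_co.Reps
set_option autoImplicit false
set_option maxRecDepth 1000000
set_option linter.all false

namespace K4m.Ev.PA

theorem e0_0 : allR testL (List.take 120 (List.drop 0 reps0)) = true := by decide +kernel

theorem e0_120 : allR testL (List.take 120 (List.drop 120 reps0)) = true := by decide +kernel

theorem e0_240 : allR testL (List.take 120 (List.drop 240 reps0)) = true := by decide +kernel

theorem e0_360 : allR testL (List.take 120 (List.drop 360 reps0)) = true := by decide +kernel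

theorem e0 : ∀ m ∈ reps0, testL m = true := by
  intro m hm
  have h : reps0 = List.take 120 (List.drop 0 reps0) ++ List.take 120 (List.drop 120 reps0) ++ List.take 120 (List.drop 240 reps0) ++ List.take 120 (List.drop 360 reps0) := by decide +kernel
  rw [h] at hm
  simp only [List.mem_append] at hm
  rcases hm with ((hm | hm) | hm) | hm
  · exact allR_sound _ _ e0_0 m hm
  · exact allR_sound _ _ e0_120 m hm
  · exact allR_sound _ _ e0_240 m hm
  · exact allR_sound _ _ e0_360 m hm

end K4m.Ev.PA
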