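import Pool.Agent.Lib.MP_392c14_co.Ev.PA.All
set_option autoImplicit false
set_option maxRecDepth 1000000
set_option linter.all false

namespace K4m.Ev.PA

/-- the upper bound of the Turan density -/
theorem rho_lt : rho < (28572 : ℕ) / (100000 : ℕ) :=
  cert.planA cert_good 4503599627370496 28572 100000 6485302710361778590 1 3 7566036406477508928 22698131394197640816 10456721003920 (by norm_num) (by norm_num) (by norm_num)
    (by norm_num) (by norm_num) (by norm_num) (by norm_num) checked

end K4m.Ev.PA
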