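import Pool.Agent.Lib.MP_392c14_co.Ev.PA.Q0
import Pool.Agent.Lib.MP_392c14_co.Ev.PA.Q192
import Pool.Agent.Lib.MP_392c14_co.Ev.PA.Q220
import Pool.Agent.Lib.MP_392c14_co.Ev.PA.Q480
import Pool.Agent.Lib.MP_392c14_co.Ev.PA.Q512
import Pool.Agent.Lib.MP_392c14_co.Ev.PA.Q704
import Pool.Agent.Lib.MP_392c14_co.Ev.PA.Q768
import Pool.Agent.Lib.MP_392c14_co.Ev.PA.Q769
import Pool.Agent.Lib.MP_392c14_co.Ev.PA.Q788
import Pool.Agent.Lib.MP_392c14_co.Ev.PA.Q896
import Pool.Agent.Lib.MP_392c14_co.Ev.PA.Q897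
set_option autoImplicit false
set_option maxRecDepth 1000000
set_option linter.all false

namespace K4m.Ev.PA

noncomputable def tabQ : Tr (Tr Nat) := (.node (.node (.node (.node (.node (.node (.node (.node (.node (.node (.node (.node (.leaf q0_0) (.leaf q897_0)) (.node (.leaf q512_128) (.leaf (.leaf 0)))) (.node (.node (.leaf q192_64) (.leaf (.leaf 0))) (.node (.leaf q768_128) (.leaf (.leaf 0))))) (.node (.node (.node (.leaf q0_256) (.leaf (.leaf 0))) (.node (.leaf q704_64) (.leaf (.leaf 0)))) (.node (.node (.leaf q480_0) (.leaf (.leaf 0))) (.node (.leaf q788_64) (.leaf (.leaf 0)))))) (.node (.node (.node (.node (.leaf q0_128) (.leaf (.leaf 0))) (.node (.leaf q512_256) (.leaf (.leaf 0)))) (.node (.node (.leaf q220_0) (.leaf (.leaf 0))) (.node (.leaf q769_64) (.leaf (.leaf 0))))) (.node (.node (.node (.leaf q0_384) (.leaf (.leaf 0))) (.node (.leaf q768_0) (.leaf (.leaf 0)))) (.node (.node (.leaf q512_0) (.leaf (.leaf 0))) (.node (.leaf q896_64) (.leaf (.leaf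 0))))))) (.node (.node (.node (.node (.node (.leaf q0_64) (.leaf q897_64)) (.node (.leaf q512_192) (.leaf (.leaf 0)))) (.node (.node (.leaf q192_128) (.leaf (.leaf 0))) (.node (.leaf q769_0) (.leaf (.leaf 0))))) (.node (.node (.node (.leaf q0_320) (.leaf (.leaf 0))) (.node (.leaf q704_128) (.leaf (.leaf 0)))) (.node (.node (.leaf q480_64) (.leaf (.leaf 0))) (.node (.leaf q896_0) (.leaf (.leaf 0)))))) (.node (.node (.node (.node (.leaf q0_192) (.leaf (.leaf 0))) (.node (.leaf q704_0) (.leaf (.leaf 0)))) (.node (.node (.leaf q220_64) (.leaf (.leaf 0))) (.node (.leaf q788_0) (.leaf (.leaf 0))))) (.node (.node (.node (.leaf q192_0) (.leaf (.leaf 0))) (.node (.leaf q768_64) (.leaf (.leaf 0)))) (.node (.node (.leaf q512_64) (.leaf (.leaf 0))) (.node (.leaf q896_128) (.leaf (.leaf 0)))))))) (.node (.node (.node (.node (.node (.node (.leaf q0_32) (.leaf q897_32)) (.node (.leaf q512_160) (.leaf (.leaf 0)))) (.node (.node (.leaf q192_96) (.leaf (.leaf 0))) (.node (.leaf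 q768_160) (.leaf (.leaf 0))))) (.node (.node (.node (.leaf q0_288) (.leaf (.leaf 0))) (.node (.leaf q704_96) (.leaf (.leaf 0)))) (.node (.node (.leaf q480_32) (.leaf (.leaf 0))) (.leaf (.leaf 0))))) (.node (.node (.node (.node (.leaf q0_160) (.leaf (.leaf 0))) (.leaf (.leaf 0))) (.node (.node (.leaf q220_32) (.leaf (.leaf 0))) (.node (.leaf q769_96) (.leaf (.leaf 0))))) (.node (.node (.leaf (.leaf 0)) (.node (.leaf q768_32) (.leaf (.leaf 0)))) (.node (.node (.leaf q512_32) (.leaf (.leaf 0))) (.node (.leaf q896_96) (.leaf (.leaf 0))))))) (.node (.node (.node (.node (.node (.leaf q0_96) (.leaf (.leaf 0))) (.node (.leaf q512_224) (.leaf (.leaf 0)))) (.node (.node (.leaf q192_160) (.leaf (.leaf 0))) (.node (.leaf q769_32) (.leaf (.leaf 0))))) (.node (.node (.node (.leaf q0_352) (.leaf (.leaf 0))) (.leaf (.leaf 0))) (.node (.node (.leaf q480_96) (.leaf (.leaf 0))) (.node (.leaf q896_32) (.leaf (.leaf 0)))))) (.node (.node (.node (.node (.leaf q0_224) (.leaf (.leaf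 0))) (.node (.leaf q704_32) (.leaf (.leaf 0)))) (.node (.leaf (.leaf 0)) (.node (.leaf q788_32) (.leaf (.leaf 0))))) (.node (.node (.node (.leaf q192_32) (.leaf (.leaf 0))) (.node (.leaf q768_96) (.leaf (.leaf 0)))) (.node (.node (.leaf q512_96) (.leaf (.leaf 0))) (.leaf (.leaf 0)))))))) (.node (.node (.node (.node (.node (.node (.node (.leaf q0_16) (.leaf q897_16)) (.node (.leaf q512_144) (.leaf (.leaf 0)))) (.node (.node (.leaf q192_80) (.leaf (.leaf 0))) (.node (.leaf q768_144) (.leaf (.leaf 0))))) (.node (.node (.node (.leaf q0_272) (.leaf (.leaf 0))) (.node (.leaf q704_80) (.leaf (.leaf 0)))) (.node (.node (.leaf q480_16) (.leaf (.leaf 0))) (.node (.leaf q788_80) (.leaf (.leaf 0)))))) (.node (.node (.node (.node (.leaf q0_144) (.leaf (.leaf 0))) (.leaf (.leaf 0))) (.node (.node (.leaf q220_16) (.leaf (.leaf 0))) (.node (.leaf q769_80) (.leaf (.leaf 0))))) (.node (.node (.leaf (.leaf 0)) (.node (.leaf q768_16) (.leaf (.leaf 0)))) (.node (.node (.leaf q512_16)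 (.leaf (.leaf 0))) (.node (.leaf q896_80) (.leaf (.leaf 0))))))) (.node (.node (.node (.node (.node (.leaf q0_80) (.leaf q897_80)) (.node (.leaf q512_208) (.leaf (.leaf 0)))) (.node (.node (.leaf q192_144) (.leaf (.leaf 0))) (.node (.leaf q769_16) (.leaf (.leaf 0))))) (.node (.node (.node (.leaf q0_336) (.leaf (.leaf 0))) (.leaf (.leaf 0))) (.node (.node (.leaf q480_80) (.leaf (.leaf 0))) (.node (.leaf q896_16) (.leaf (.leaf 0)))))) (.node (.node (.node (.node (.leaf q0_208) (.leaf (.leaf 0))) (.node (.leaf q704_16) (.leaf (.leaf 0)))) (.node (.leaf (.leaf 0)) (.node (.leaf q788_16) (.leaf (.leaf 0))))) (.node (.node (.node (.leaf q192_16) (.leaf (.leaf 0))) (.node (.leaf q768_80) (.leaf (.leaf 0)))) (.node (.node (.leaf q512_80) (.leaf (.leaf 0))) (.node (.leaf q896_144) (.leaf (.leaf 0)))))))) (.node (.node (.node (.node (.node (.node (.leaf q0_48) (.leaf q897_48)) (.node (.leaf q512_176) (.leaf (.leaf 0)))) (.node (.node (.leaf q192_112) (.leaf (.leaf 0)))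 (.node (.leaf q768_176) (.leaf (.leaf 0))))) (.node (.node (.node (.leaf q0_304) (.leaf (.leaf 0))) (.node (.leaf q704_112) (.leaf (.leaf 0)))) (.node (.node (.leaf q480_48) (.leaf (.leaf 0))) (.leaf (.leaf 0))))) (.node (.node (.node (.node (.leaf q0_176) (.leaf (.leaf 0))) (.leaf (.leaf 0))) (.node (.node (.leaf q220_48) (.leaf (.leaf 0))) (.node (.leaf q769_112) (.leaf (.leaf 0))))) (.node (.node (.leaf (.leaf 0)) (.node (.leaf q768_48) (.leaf (.leaf 0)))) (.node (.node (.leaf q512_48) (.leaf (.leaf 0))) (.node (.leaf q896_112) (.leaf (.leaf 0))))))) (.node (.node (.node (.node (.node (.leaf q0_112) (.leaf (.leaf 0))) (.node (.leaf q512_240) (.leaf (.leaf 0)))) (.node (.leaf (.leaf 0)) (.node (.leaf q769_48) (.leaf (.leaf 0))))) (.node (.node (.node (.leaf q0_368) (.leaf (.leaf 0))) (.leaf (.leaf 0))) (.node (.leaf (.leaf 0)) (.node (.leaf q896_48) (.leaf (.leaf 0)))))) (.node (.node (.node (.node (.leaf q0_240) (.leaf (.leaf 0))) (.node (.leaf q704_48) (.leaf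 (.leaf 0)))) (.node (.leaf (.leaf 0)) (.node (.leaf q788_48) (.leaf (.leaf 0))))) (.node (.node (.node (.leaf q192_48) (.leaf (.leaf 0))) (.node (.leaf q768_112) (.leaf (.leaf 0)))) (.node (.node (.leaf q512_112) (.leaf (.leaf 0))) (.leaf (.leaf 0))))))))) (.node (.node (.node (.node (.node (.node (.node (.node (.leaf q0_8) (.leaf q897_8)) (.node (.leaf q512_136) (.leaf (.leaf 0)))) (.node (.node (.leaf q192_72) (.leaf (.leaf 0))) (.node (.leaf q768_136) (.leaf (.leaf 0))))) (.node (.node (.node (.leaf q0_264) (.leaf (.leaf 0))) (.node (.leaf q704_72) (.leaf (.leaf 0)))) (.node (.node (.leaf q480_8) (.leaf (.leaf 0))) (.node (.leaf q788_72) (.leaf (.leaf 0)))))) (.node (.node (.node (.node (.leaf q0_136) (.leaf (.leaf 0))) (.leaf (.leaf 0))) (.node (.node (.leaf q220_8) (.leaf (.leaf 0))) (.node (.leaf q769_72) (.leaf (.leaf 0))))) (.node (.node (.leaf (.leaf 0)) (.node (.leaf q768_8) (.leaf (.leaf 0)))) (.node (.node (.leaf q512_8) (.leaf (.leaf 0))) (.node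 (.leaf q896_72) (.leaf (.leaf 0))))))) (.node (.node (.node (.node (.node (.leaf q0_72) (.leaf q897_72)) (.node (.leaf q512_200) (.leaf (.leaf 0)))) (.node (.node (.leaf q192_136) (.leaf (.leaf 0))) (.node (.leaf q769_8) (.leaf (.leaf 0))))) (.node (.node (.node (.leaf q0_328) (.leaf (.leaf 0))) (.leaf (.leaf 0))) (.node (.node (.leaf q480_72) (.leaf (.leaf 0))) (.node (.leaf q896_8) (.leaf (.leaf 0)))))) (.node (.node (.node (.node (.leaf q0_200) (.leaf (.leaf 0))) (.node (.leaf q704_8) (.leaf (.leaf 0)))) (.node (.leaf (.leaf 0)) (.node (.leaf q788_8) (.leaf (.leaf 0))))) (.node (.node (.node (.leaf q192_8) (.leaf (.leaf 0))) (.node (.leaf q768_72) (.leaf (.leaf 0)))) (.node (.node (.leaf q512_72) (.leaf (.leaf 0))) (.node (.leaf q896_136) (.leaf (.leaf 0)))))))) (.node (.node (.node (.node (.node (.node (.leaf q0_40) (.leaf q897_40)) (.node (.leaf q512_168) (.leaf (.leaf 0)))) (.node (.node (.leaf q192_104) (.leaf (.leaf 0))) (.node (.leaf q768_168) (.leaf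 (.leaf 0))))) (.node (.node (.node (.leaf q0_296) (.leaf (.leaf 0))) (.node (.leaf q704_104) (.leaf (.leaf 0)))) (.node (.node (.leaf q480_40) (.leaf (.leaf 0))) (.leaf (.leaf 0))))) (.node (.node (.node (.node (.leaf q0_168) (.leaf (.leaf 0))) (.leaf (.leaf 0))) (.node (.node (.leaf q220_40) (.leaf (.leaf 0))) (.node (.leaf q769_104) (.leaf (.leaf 0))))) (.node (.node (.leaf (.leaf 0)) (.node (.leaf q768_40) (.leaf (.leaf 0)))) (.node (.node (.leaf q512_40) (.leaf (.leaf 0))) (.node (.leaf q896_104) (.leaf (.leaf 0))))))) (.node (.node (.node (.node (.node (.leaf q0_104) (.leaf (.leaf 0))) (.node (.leaf q512_232) (.leaf (.leaf 0)))) (.node (.node (.leaf q192_168) (.leaf (.leaf 0))) (.node (.leaf q769_40) (.leaf (.leaf 0))))) (.node (.node (.node (.leaf q0_360) (.leaf (.leaf 0))) (.leaf (.leaf 0))) (.node (.leaf (.leaf 0)) (.node (.leaf q896_40) (.leaf (.leaf 0)))))) (.node (.node (.node (.node (.leaf q0_232) (.leaf (.leaf 0))) (.node (.leaf q704_40) (.leaf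 (.leaf 0)))) (.node (.leaf (.leaf 0)) (.node (.leaf q788_40) (.leaf (.leaf 0))))) (.node (.node (.node (.leaf q192_40) (.leaf (.leaf 0))) (.node (.leaf q768_104) (.leaf (.leaf 0)))) (.node (.node (.leaf q512_104) (.leaf (.leaf 0))) (.leaf (.leaf 0)))))))) (.node (.node (.node (.node (.node (.node (.node (.leaf q0_24) (.leaf q897_24)) (.node (.leaf q512_152) (.leaf (.leaf 0)))) (.node (.node (.leaf q192_88) (.leaf (.leaf 0))) (.node (.leaf q768_152) (.leaf (.leaf 0))))) (.node (.node (.node (.leaf q0_280) (.leaf (.leaf 0))) (.node (.leaf q704_88) (.leaf (.leaf 0)))) (.node (.node (.leaf q480_24) (.leaf (.leaf 0))) (.node (.leaf q788_88) (.leaf (.leaf 0)))))) (.node (.node (.node (.node (.leaf q0_152) (.leaf (.leaf 0))) (.leaf (.leaf 0))) (.node (.node (.leaf q220_24) (.leaf (.leaf 0))) (.node (.leaf q769_88) (.leaf (.leaf 0))))) (.node (.node (.leaf (.leaf 0)) (.node (.leaf q768_24) (.leaf (.leaf 0)))) (.node (.node (.leaf q512_24) (.leaf (.leaf 0))) (.node (.leaf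 q896_88) (.leaf (.leaf 0))))))) (.node (.node (.node (.node (.node (.leaf q0_88) (.leaf q897_88)) (.node (.leaf q512_216) (.leaf (.leaf 0)))) (.node (.node (.leaf q192_152) (.leaf (.leaf 0))) (.node (.leaf q769_24) (.leaf (.leaf 0))))) (.node (.node (.node (.leaf q0_344) (.leaf (.leaf 0))) (.leaf (.leaf 0))) (.node (.node (.leaf q480_88) (.leaf (.leaf 0))) (.node (.leaf q896_24) (.leaf (.leaf 0)))))) (.node (.node (.node (.node (.leaf q0_216) (.leaf (.leaf 0))) (.node (.leaf q704_24) (.leaf (.leaf 0)))) (.node (.leaf (.leaf 0)) (.node (.leaf q788_24) (.leaf (.leaf 0))))) (.node (.node (.node (.leaf q192_24) (.leaf (.leaf 0))) (.node (.leaf q768_88) (.leaf (.leaf 0)))) (.node (.node (.leaf q512_88) (.leaf (.leaf 0))) (.leaf (.leaf 0))))))) (.node (.node (.node (.node (.node (.node (.leaf q0_56) (.leaf q897_56)) (.node (.leaf q512_184) (.leaf (.leaf 0)))) (.node (.node (.leaf q192_120) (.leaf (.leaf 0))) (.node (.leaf q768_184) (.leaf (.leaf 0))))) (.node (.node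 (.node (.leaf q0_312) (.leaf (.leaf 0))) (.node (.leaf q704_120) (.leaf (.leaf 0)))) (.node (.node (.leaf q480_56) (.leaf (.leaf 0))) (.leaf (.leaf 0))))) (.node (.node (.node (.node (.leaf q0_184) (.leaf (.leaf 0))) (.leaf (.leaf 0))) (.node (.node (.leaf q220_56) (.leaf (.leaf 0))) (.node (.leaf q769_120) (.leaf (.leaf 0))))) (.node (.node (.leaf (.leaf 0)) (.node (.leaf q768_56) (.leaf (.leaf 0)))) (.node (.node (.leaf q512_56) (.leaf (.leaf 0))) (.node (.leaf q896_120) (.leaf (.leaf 0))))))) (.node (.node (.node (.node (.node (.leaf q0_120) (.leaf (.leaf 0))) (.node (.leaf q512_248) (.leaf (.leaf 0)))) (.node (.leaf (.leaf 0)) (.node (.leaf q769_56) (.leaf (.leaf 0))))) (.node (.node (.node (.leaf q0_376) (.leaf (.leaf 0))) (.leaf (.leaf 0))) (.node (.leaf (.leaf 0)) (.node (.leaf q896_56) (.leaf (.leaf 0)))))) (.node (.node (.node (.node (.leaf q0_248) (.leaf (.leaf 0))) (.node (.leaf q704_56) (.leaf (.leaf 0)))) (.node (.leaf (.leaf 0)) (.node (.leaf q788_56)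 (.leaf (.leaf 0))))) (.node (.node (.node (.leaf q192_56) (.leaf (.leaf 0))) (.node (.leaf q768_120) (.leaf (.leaf 0)))) (.node (.node (.leaf q512_120) (.leaf (.leaf 0))) (.leaf (.leaf 0)))))))))) (.node (.node (.node (.node (.node (.node (.node (.node (.node (.leaf q0_4) (.leaf q897_4)) (.node (.leaf q512_132) (.leaf (.leaf 0)))) (.node (.node (.leaf q192_68) (.leaf (.leaf 0))) (.node (.leaf q768_132) (.leaf (.leaf 0))))) (.node (.node (.node (.leaf q0_260) (.leaf (.leaf 0))) (.node (.leaf q704_68) (.leaf (.leaf 0)))) (.node (.node (.leaf q480_4) (.leaf (.leaf 0))) (.node (.leaf q788_68) (.leaf (.leaf 0)))))) (.node (.node (.node (.node (.leaf q0_132) (.leaf (.leaf 0))) (.node (.leaf q512_260) (.leaf (.leaf 0)))) (.node (.node (.leaf q220_4) (.leaf (.leaf 0))) (.node (.leaf q769_68) (.leaf (.leaf 0))))) (.node (.node (.leaf (.leaf 0)) (.node (.leaf q768_4) (.leaf (.leaf 0)))) (.node (.node (.leaf q512_4) (.leaf (.leaf 0))) (.node (.leaf q896_68) (.leaf (.leaf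 0))))))) (.node (.node (.node (.node (.node (.leaf q0_68) (.leaf q897_68)) (.node (.leaf q512_196) (.leaf (.leaf 0)))) (.node (.node (.leaf q192_132) (.leaf (.leaf 0))) (.node (.leaf q769_4) (.leaf (.leaf 0))))) (.node (.node (.node (.leaf q0_324) (.leaf (.leaf 0))) (.node (.leaf q704_132) (.leaf (.leaf 0)))) (.node (.node (.leaf q480_68) (.leaf (.leaf 0))) (.node (.leaf q896_4) (.leaf (.leaf 0)))))) (.node (.node (.node (.node (.leaf q0_196) (.leaf (.leaf 0))) (.node (.leaf q704_4) (.leaf (.leaf 0)))) (.node (.node (.leaf q220_68) (.leaf (.leaf 0))) (.node (.leaf q788_4) (.leaf (.leaf 0))))) (.node (.node (.node (.leaf q192_4) (.leaf (.leaf 0))) (.node (.leaf q768_68) (.leaf (.leaf 0)))) (.node (.node (.leaf q512_68) (.leaf (.leaf 0))) (.node (.leaf q896_132) (.leaf (.leaf 0)))))))) (.node (.node (.node (.node (.node (.node (.leaf q0_36) (.leaf q897_36)) (.node (.leaf q512_164) (.leaf (.leaf 0)))) (.node (.node (.leaf q192_100) (.leaf (.leaf 0))) (.node (.leaf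 q768_164) (.leaf (.leaf 0))))) (.node (.node (.node (.leaf q0_292) (.leaf (.leaf 0))) (.node (.leaf q704_100) (.leaf (.leaf 0)))) (.node (.node (.leaf q480_36) (.leaf (.leaf 0))) (.leaf (.leaf 0))))) (.node (.node (.node (.node (.leaf q0_164) (.leaf (.leaf 0))) (.leaf (.leaf 0))) (.node (.node (.leaf q220_36) (.leaf (.leaf 0))) (.node (.leaf q769_100) (.leaf (.leaf 0))))) (.node (.node (.leaf (.leaf 0)) (.node (.leaf q768_36) (.leaf (.leaf 0)))) (.node (.node (.leaf q512_36) (.leaf (.leaf 0))) (.node (.leaf q896_100) (.leaf (.leaf 0))))))) (.node (.node (.node (.node (.node (.leaf q0_100) (.leaf (.leaf 0))) (.node (.leaf q512_228) (.leaf (.leaf 0)))) (.node (.node (.leaf q192_164) (.leaf (.leaf 0))) (.node (.leaf q769_36) (.leaf (.leaf 0))))) (.node (.node (.node (.leaf q0_356) (.leaf (.leaf 0))) (.leaf (.leaf 0))) (.node (.node (.leaf q480_100) (.leaf (.leaf 0))) (.node (.leaf q896_36) (.leaf (.leaf 0)))))) (.node (.node (.node (.node (.leaf q0_228) (.leaf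 (.leaf 0))) (.node (.leaf q704_36) (.leaf (.leaf 0)))) (.node (.leaf (.leaf 0)) (.node (.leaf q788_36) (.leaf (.leaf 0))))) (.node (.node (.node (.leaf q192_36) (.leaf (.leaf 0))) (.node (.leaf q768_100) (.leaf (.leaf 0)))) (.node (.node (.leaf q512_100) (.leaf (.leaf 0))) (.leaf (.leaf 0)))))))) (.node (.node (.node (.node (.node (.node (.node (.leaf q0_20) (.leaf q897_20)) (.node (.leaf q512_148) (.leaf (.leaf 0)))) (.node (.node (.leaf q192_84) (.leaf (.leaf 0))) (.node (.leaf q768_148) (.leaf (.leaf 0))))) (.node (.node (.node (.leaf q0_276) (.leaf (.leaf 0))) (.node (.leaf q704_84) (.leaf (.leaf 0)))) (.node (.node (.leaf q480_20) (.leaf (.leaf 0))) (.node (.leaf q788_84) (.leaf (.leaf 0)))))) (.node (.node (.node (.node (.leaf q0_148) (.leaf (.leaf 0))) (.leaf (.leaf 0))) (.node (.node (.leaf q220_20) (.leaf (.leaf 0))) (.node (.leaf q769_84) (.leaf (.leaf 0))))) (.node (.node (.leaf (.leaf 0)) (.node (.leaf q768_20) (.leaf (.leaf 0)))) (.node (.node (.leaf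 q512_20) (.leaf (.leaf 0))) (.node (.leaf q896_84) (.leaf (.leaf 0))))))) (.node (.node (.node (.node (.node (.leaf q0_84) (.leaf q897_84)) (.node (.leaf q512_212) (.leaf (.leaf 0)))) (.node (.node (.leaf q192_148) (.leaf (.leaf 0))) (.node (.leaf q769_20) (.leaf (.leaf 0))))) (.node (.node (.node (.leaf q0_340) (.leaf (.leaf 0))) (.leaf (.leaf 0))) (.node (.node (.leaf q480_84) (.leaf (.leaf 0))) (.node (.leaf q896_20) (.leaf (.leaf 0)))))) (.node (.node (.node (.node (.leaf q0_212) (.leaf (.leaf 0))) (.node (.leaf q704_20) (.leaf (.leaf 0)))) (.node (.leaf (.leaf 0)) (.node (.leaf q788_20) (.leaf (.leaf 0))))) (.node (.node (.node (.leaf q192_20) (.leaf (.leaf 0))) (.node (.leaf q768_84) (.leaf (.leaf 0)))) (.node (.node (.leaf q512_84) (.leaf (.leaf 0))) (.leaf (.leaf 0))))))) (.node (.node (.node (.node (.node (.node (.leaf q0_52) (.leaf q897_52)) (.node (.leaf q512_180) (.leaf (.leaf 0)))) (.node (.node (.leaf q192_116) (.leaf (.leaf 0))) (.node (.leaf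 q768_180) (.leaf (.leaf 0))))) (.node (.node (.node (.leaf q0_308) (.leaf (.leaf 0))) (.node (.leaf q704_116) (.leaf (.leaf 0)))) (.node (.node (.leaf q480_52) (.leaf (.leaf 0))) (.leaf (.leaf 0))))) (.node (.node (.node (.node (.leaf q0_180) (.leaf (.leaf 0))) (.leaf (.leaf 0))) (.node (.node (.leaf q220_52) (.leaf (.leaf 0))) (.node (.leaf q769_116) (.leaf (.leaf 0))))) (.node (.node (.leaf (.leaf 0)) (.node (.leaf q768_52) (.leaf (.leaf 0)))) (.node (.node (.leaf q512_52) (.leaf (.leaf 0))) (.node (.leaf q896_116) (.leaf (.leaf 0))))))) (.node (.node (.node (.node (.node (.leaf q0_116) (.leaf (.leaf 0))) (.node (.leaf q512_244) (.leaf (.leaf 0)))) (.node (.leaf (.leaf 0)) (.node (.leaf q769_52) (.leaf (.leaf 0))))) (.node (.node (.node (.leaf q0_372) (.leaf (.leaf 0))) (.leaf (.leaf 0))) (.node (.leaf (.leaf 0)) (.node (.leaf q896_52) (.leaf (.leaf 0)))))) (.node (.node (.node (.node (.leaf q0_244) (.leaf (.leaf 0))) (.node (.leaf q704_52) (.leaf (.leaf 0))))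 (.node (.leaf (.leaf 0)) (.node (.leaf q788_52) (.leaf (.leaf 0))))) (.node (.node (.node (.leaf q192_52) (.leaf (.leaf 0))) (.node (.leaf q768_116) (.leaf (.leaf 0)))) (.node (.node (.leaf q512_116) (.leaf (.leaf 0))) (.leaf (.leaf 0))))))))) (.node (.node (.node (.node (.node (.node (.node (.node (.leaf q0_12) (.leaf q897_12)) (.node (.leaf q512_140) (.leaf (.leaf 0)))) (.node (.node (.leaf q192_76) (.leaf (.leaf 0))) (.node (.leaf q768_140) (.leaf (.leaf 0))))) (.node (.node (.node (.leaf q0_268) (.leaf (.leaf 0))) (.node (.leaf q704_76) (.leaf (.leaf 0)))) (.node (.node (.leaf q480_12) (.leaf (.leaf 0))) (.node (.leaf q788_76) (.leaf (.leaf 0)))))) (.node (.node (.node (.node (.leaf q0_140) (.leaf (.leaf 0))) (.leaf (.leaf 0))) (.node (.node (.leaf q220_12) (.leaf (.leaf 0))) (.node (.leaf q769_76) (.leaf (.leaf 0))))) (.node (.node (.leaf (.leaf 0)) (.node (.leaf q768_12) (.leaf (.leaf 0)))) (.node (.node (.leaf q512_12) (.leaf (.leaf 0))) (.node (.leaf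 q896_76) (.leaf (.leaf 0))))))) (.node (.node (.node (.node (.node (.leaf q0_76) (.leaf q897_76)) (.node (.leaf q512_204) (.leaf (.leaf 0)))) (.node (.node (.leaf q192_140) (.leaf (.leaf 0))) (.node (.leaf q769_12) (.leaf (.leaf 0))))) (.node (.node (.node (.leaf q0_332) (.leaf (.leaf 0))) (.leaf (.leaf 0))) (.node (.node (.leaf q480_76) (.leaf (.leaf 0))) (.node (.leaf q896_12) (.leaf (.leaf 0)))))) (.node (.node (.node (.node (.leaf q0_204) (.leaf (.leaf 0))) (.node (.leaf q704_12) (.leaf (.leaf 0)))) (.node (.leaf (.leaf 0)) (.node (.leaf q788_12) (.leaf (.leaf 0))))) (.node (.node (.node (.leaf q192_12) (.leaf (.leaf 0))) (.node (.leaf q768_76) (.leaf (.leaf 0)))) (.node (.node (.leaf q512_76) (.leaf (.leaf 0))) (.node (.leaf q896_140) (.leaf (.leaf 0)))))))) (.node (.node (.node (.node (.node (.node (.leaf q0_44) (.leaf q897_44)) (.node (.leaf q512_172) (.leaf (.leaf 0)))) (.node (.node (.leaf q192_108) (.leaf (.leaf 0))) (.node (.leaf q768_172) (.leaf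 (.leaf 0))))) (.node (.node (.node (.leaf q0_300) (.leaf (.leaf 0))) (.node (.leaf q704_108) (.leaf (.leaf 0)))) (.node (.node (.leaf q480_44) (.leaf (.leaf 0))) (.leaf (.leaf 0))))) (.node (.node (.node (.node (.leaf q0_172) (.leaf (.leaf 0))) (.leaf (.leaf 0))) (.node (.node (.leaf q220_44) (.leaf (.leaf 0))) (.node (.leaf q769_108) (.leaf (.leaf 0))))) (.node (.node (.leaf (.leaf 0)) (.node (.leaf q768_44) (.leaf (.leaf 0)))) (.node (.node (.leaf q512_44) (.leaf (.leaf 0))) (.node (.leaf q896_108) (.leaf (.leaf 0))))))) (.node (.node (.node (.node (.node (.leaf q0_108) (.leaf (.leaf 0))) (.node (.leaf q512_236) (.leaf (.leaf 0)))) (.node (.node (.leaf q192_172) (.leaf (.leaf 0))) (.node (.leaf q769_44) (.leaf (.leaf 0))))) (.node (.node (.node (.leaf q0_364) (.leaf (.leaf 0))) (.leaf (.leaf 0))) (.node (.leaf (.leaf 0)) (.node (.leaf q896_44) (.leaf (.leaf 0)))))) (.node (.node (.node (.node (.leaf q0_236) (.leaf (.leaf 0))) (.node (.leaf q704_44) (.leaf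 (.leaf 0)))) (.node (.leaf (.leaf 0)) (.node (.leaf q788_44) (.leaf (.leaf 0))))) (.node (.node (.node (.leaf q192_44) (.leaf (.leaf 0))) (.node (.leaf q768_108) (.leaf (.leaf 0)))) (.node (.node (.leaf q512_108) (.leaf (.leaf 0))) (.leaf (.leaf 0)))))))) (.node (.node (.node (.node (.node (.node (.node (.leaf q0_28) (.leaf q897_28)) (.node (.leaf q512_156) (.leaf (.leaf 0)))) (.node (.node (.leaf q192_92) (.leaf (.leaf 0))) (.node (.leaf q768_156) (.leaf (.leaf 0))))) (.node (.node (.node (.leaf q0_284) (.leaf (.leaf 0))) (.node (.leaf q704_92) (.leaf (.leaf 0)))) (.node (.node (.leaf q480_28) (.leaf (.leaf 0))) (.node (.leaf q788_92) (.leaf (.leaf 0)))))) (.node (.node (.node (.node (.leaf q0_156) (.leaf (.leaf 0))) (.leaf (.leaf 0))) (.node (.node (.leaf q220_28) (.leaf (.leaf 0))) (.node (.leaf q769_92) (.leaf (.leaf 0))))) (.node (.node (.leaf (.leaf 0)) (.node (.leaf q768_28) (.leaf (.leaf 0)))) (.node (.node (.leaf q512_28) (.leaf (.leaf 0))) (.node (.leaf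 q896_92) (.leaf (.leaf 0))))))) (.node (.node (.node (.node (.node (.leaf q0_92) (.leaf q897_92)) (.node (.leaf q512_220) (.leaf (.leaf 0)))) (.node (.node (.leaf q192_156) (.leaf (.leaf 0))) (.node (.leaf q769_28) (.leaf (.leaf 0))))) (.node (.node (.node (.leaf q0_348) (.leaf (.leaf 0))) (.leaf (.leaf 0))) (.node (.node (.leaf q480_92) (.leaf (.leaf 0))) (.node (.leaf q896_28) (.leaf (.leaf 0)))))) (.node (.node (.node (.node (.leaf q0_220) (.leaf (.leaf 0))) (.node (.leaf q704_28) (.leaf (.leaf 0)))) (.node (.leaf (.leaf 0)) (.node (.leaf q788_28) (.leaf (.leaf 0))))) (.node (.node (.node (.leaf q192_28) (.leaf (.leaf 0))) (.node (.leaf q768_92) (.leaf (.leaf 0)))) (.node (.node (.leaf q512_92) (.leaf (.leaf 0))) (.leaf (.leaf 0))))))) (.node (.node (.node (.node (.node (.node (.leaf q0_60) (.leaf q897_60)) (.node (.leaf q512_188) (.leaf (.leaf 0)))) (.node (.node (.leaf q192_124) (.leaf (.leaf 0))) (.node (.leaf q768_188) (.leaf (.leaf 0))))) (.node (.node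 (.node (.leaf q0_316) (.leaf (.leaf 0))) (.node (.leaf q704_124) (.leaf (.leaf 0)))) (.node (.node (.leaf q480_60) (.leaf (.leaf 0))) (.leaf (.leaf 0))))) (.node (.node (.node (.node (.leaf q0_188) (.leaf (.leaf 0))) (.leaf (.leaf 0))) (.node (.node (.leaf q220_60) (.leaf (.leaf 0))) (.leaf (.leaf 0)))) (.node (.node (.leaf (.leaf 0)) (.node (.leaf q768_60) (.leaf (.leaf 0)))) (.node (.node (.leaf q512_60) (.leaf (.leaf 0))) (.node (.leaf q896_124) (.leaf (.leaf 0))))))) (.node (.node (.node (.node (.node (.leaf q0_124) (.leaf (.leaf 0))) (.node (.leaf q512_252) (.leaf (.leaf 0)))) (.node (.leaf (.leaf 0)) (.node (.leaf q769_60) (.leaf (.leaf 0))))) (.node (.node (.node (.leaf q0_380) (.leaf (.leaf 0))) (.leaf (.leaf 0))) (.node (.leaf (.leaf 0)) (.node (.leaf q896_60) (.leaf (.leaf 0)))))) (.node (.node (.node (.node (.leaf q0_252) (.leaf (.leaf 0))) (.node (.leaf q704_60) (.leaf (.leaf 0)))) (.node (.leaf (.leaf 0)) (.node (.leaf q788_60) (.leaf (.leaf 0)))))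 (.node (.node (.node (.leaf q192_60) (.leaf (.leaf 0))) (.node (.leaf q768_124) (.leaf (.leaf 0)))) (.node (.node (.leaf q512_124) (.leaf (.leaf 0))) (.leaf (.leaf 0))))))))))) (.node (.node (.node (.node (.node (.node (.node (.node (.node (.node (.leaf q0_2) (.leaf q897_2)) (.node (.leaf q512_130) (.leaf (.leaf 0)))) (.node (.node (.leaf q192_66) (.leaf (.leaf 0))) (.node (.leaf q768_130) (.leaf (.leaf 0))))) (.node (.node (.node (.leaf q0_258) (.leaf (.leaf 0))) (.node (.leaf q704_66) (.leaf (.leaf 0)))) (.node (.node (.leaf q480_2) (.leaf (.leaf 0))) (.node (.leaf q788_66) (.leaf (.leaf 0)))))) (.node (.node (.node (.node (.leaf q0_130) (.leaf (.leaf 0))) (.node (.leaf q512_258) (.leaf (.leaf 0)))) (.node (.node (.leaf q220_2) (.leaf (.leaf 0))) (.node (.leaf q769_66) (.leaf (.leaf 0))))) (.node (.node (.node (.leaf q0_386) (.leaf (.leaf 0))) (.node (.leaf q768_2) (.leaf (.leaf 0)))) (.node (.node (.leaf q512_2) (.leaf (.leaf 0))) (.node (.leaf q896_66) (.leaf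 (.leaf 0))))))) (.node (.node (.node (.node (.node (.leaf q0_66) (.leaf q897_66)) (.node (.leaf q512_194) (.leaf (.leaf 0)))) (.node (.node (.leaf q192_130) (.leaf (.leaf 0))) (.node (.leaf q769_2) (.leaf (.leaf 0))))) (.node (.node (.node (.leaf q0_322) (.leaf (.leaf 0))) (.node (.leaf q704_130) (.leaf (.leaf 0)))) (.node (.node (.leaf q480_66) (.leaf (.leaf 0))) (.node (.leaf q896_2) (.leaf (.leaf 0)))))) (.node (.node (.node (.node (.leaf q0_194) (.leaf (.leaf 0))) (.node (.leaf q704_2) (.leaf (.leaf 0)))) (.node (.node (.leaf q220_66) (.leaf (.leaf 0))) (.node (.leaf q788_2) (.leaf (.leaf 0))))) (.node (.node (.node (.leaf q192_2) (.leaf (.leaf 0))) (.node (.leaf q768_66) (.leaf (.leaf 0)))) (.node (.node (.leaf q512_66) (.leaf (.leaf 0))) (.node (.leaf q896_130) (.leaf (.leaf 0)))))))) (.node (.node (.node (.node (.node (.node (.leaf q0_34) (.leaf q897_34)) (.node (.leaf q512_162) (.leaf (.leaf 0)))) (.node (.node (.leaf q192_98) (.leaf (.leaf 0))) (.node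 (.leaf q768_162) (.leaf (.leaf 0))))) (.node (.node (.node (.leaf q0_290) (.leaf (.leaf 0))) (.node (.leaf q704_98) (.leaf (.leaf 0)))) (.node (.node (.leaf q480_34) (.leaf (.leaf 0))) (.leaf (.leaf 0))))) (.node (.node (.node (.node (.leaf q0_162) (.leaf (.leaf 0))) (.leaf (.leaf 0))) (.node (.node (.leaf q220_34) (.leaf (.leaf 0))) (.node (.leaf q769_98) (.leaf (.leaf 0))))) (.node (.node (.leaf (.leaf 0)) (.node (.leaf q768_34) (.leaf (.leaf 0)))) (.node (.node (.leaf q512_34) (.leaf (.leaf 0))) (.node (.leaf q896_98) (.leaf (.leaf 0))))))) (.node (.node (.node (.node (.node (.leaf q0_98) (.leaf (.leaf 0))) (.node (.leaf q512_226) (.leaf (.leaf 0)))) (.node (.node (.leaf q192_162) (.leaf (.leaf 0))) (.node (.leaf q769_34) (.leaf (.leaf 0))))) (.node (.node (.node (.leaf q0_354) (.leaf (.leaf 0))) (.leaf (.leaf 0))) (.node (.node (.leaf q480_98) (.leaf (.leaf 0))) (.node (.leaf q896_34) (.leaf (.leaf 0)))))) (.node (.node (.node (.node (.leaf q0_226) (.leaf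 (.leaf 0))) (.node (.leaf q704_34) (.leaf (.leaf 0)))) (.node (.leaf (.leaf 0)) (.node (.leaf q788_34) (.leaf (.leaf 0))))) (.node (.node (.node (.leaf q192_34) (.leaf (.leaf 0))) (.node (.leaf q768_98) (.leaf (.leaf 0)))) (.node (.node (.leaf q512_98) (.leaf (.leaf 0))) (.leaf (.leaf 0)))))))) (.node (.node (.node (.node (.node (.node (.node (.leaf q0_18) (.leaf q897_18)) (.node (.leaf q512_146) (.leaf (.leaf 0)))) (.node (.node (.leaf q192_82) (.leaf (.leaf 0))) (.node (.leaf q768_146) (.leaf (.leaf 0))))) (.node (.node (.node (.leaf q0_274) (.leaf (.leaf 0))) (.node (.leaf q704_82) (.leaf (.leaf 0)))) (.node (.node (.leaf q480_18) (.leaf (.leaf 0))) (.node (.leaf q788_82) (.leaf (.leaf 0)))))) (.node (.node (.node (.node (.leaf q0_146) (.leaf (.leaf 0))) (.leaf (.leaf 0))) (.node (.node (.leaf q220_18) (.leaf (.leaf 0))) (.node (.leaf q769_82) (.leaf (.leaf 0))))) (.node (.node (.leaf (.leaf 0)) (.node (.leaf q768_18) (.leaf (.leaf 0)))) (.node (.node (.leaf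 q512_18) (.leaf (.leaf 0))) (.node (.leaf q896_82) (.leaf (.leaf 0))))))) (.node (.node (.node (.node (.node (.leaf q0_82) (.leaf q897_82)) (.node (.leaf q512_210) (.leaf (.leaf 0)))) (.node (.node (.leaf q192_146) (.leaf (.leaf 0))) (.node (.leaf q769_18) (.leaf (.leaf 0))))) (.node (.node (.node (.leaf q0_338) (.leaf (.leaf 0))) (.leaf (.leaf 0))) (.node (.node (.leaf q480_82) (.leaf (.leaf 0))) (.node (.leaf q896_18) (.leaf (.leaf 0)))))) (.node (.node (.node (.node (.leaf q0_210) (.leaf (.leaf 0))) (.node (.leaf q704_18) (.leaf (.leaf 0)))) (.node (.leaf (.leaf 0)) (.node (.leaf q788_18) (.leaf (.leaf 0))))) (.node (.node (.node (.leaf q192_18) (.leaf (.leaf 0))) (.node (.leaf q768_82) (.leaf (.leaf 0)))) (.node (.node (.leaf q512_82) (.leaf (.leaf 0))) (.node (.leaf q896_146) (.leaf (.leaf 0)))))))) (.node (.node (.node (.node (.node (.node (.leaf q0_50) (.leaf q897_50)) (.node (.leaf q512_178) (.leaf (.leaf 0)))) (.node (.node (.leaf q192_114) (.leaf (.leaf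 0))) (.node (.leaf q768_178) (.leaf (.leaf 0))))) (.node (.node (.node (.leaf q0_306) (.leaf (.leaf 0))) (.node (.leaf q704_114) (.leaf (.leaf 0)))) (.node (.node (.leaf q480_50) (.leaf (.leaf 0))) (.leaf (.leaf 0))))) (.node (.node (.node (.node (.leaf q0_178) (.leaf (.leaf 0))) (.leaf (.leaf 0))) (.node (.node (.leaf q220_50) (.leaf (.leaf 0))) (.node (.leaf q769_114) (.leaf (.leaf 0))))) (.node (.node (.leaf (.leaf 0)) (.node (.leaf q768_50) (.leaf (.leaf 0)))) (.node (.node (.leaf q512_50) (.leaf (.leaf 0))) (.node (.leaf q896_114) (.leaf (.leaf 0))))))) (.node (.node (.node (.node (.node (.leaf q0_114) (.leaf (.leaf 0))) (.node (.leaf q512_242) (.leaf (.leaf 0)))) (.node (.leaf (.leaf 0)) (.node (.leaf q769_50) (.leaf (.leaf 0))))) (.node (.node (.node (.leaf q0_370) (.leaf (.leaf 0))) (.leaf (.leaf 0))) (.node (.leaf (.leaf 0)) (.node (.leaf q896_50) (.leaf (.leaf 0)))))) (.node (.node (.node (.node (.leaf q0_242) (.leaf (.leaf 0))) (.node (.leaf q704_50)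 (.leaf (.leaf 0)))) (.node (.leaf (.leaf 0)) (.node (.leaf q788_50) (.leaf (.leaf 0))))) (.node (.node (.node (.leaf q192_50) (.leaf (.leaf 0))) (.node (.leaf q768_114) (.leaf (.leaf 0)))) (.node (.node (.leaf q512_114) (.leaf (.leaf 0))) (.leaf (.leaf 0))))))))) (.node (.node (.node (.node (.node (.node (.node (.node (.leaf q0_10) (.leaf q897_10)) (.node (.leaf q512_138) (.leaf (.leaf 0)))) (.node (.node (.leaf q192_74) (.leaf (.leaf 0))) (.node (.leaf q768_138) (.leaf (.leaf 0))))) (.node (.node (.node (.leaf q0_266) (.leaf (.leaf 0))) (.node (.leaf q704_74) (.leaf (.leaf 0)))) (.node (.node (.leaf q480_10) (.leaf (.leaf 0))) (.node (.leaf q788_74) (.leaf (.leaf 0)))))) (.node (.node (.node (.node (.leaf q0_138) (.leaf (.leaf 0))) (.leaf (.leaf 0))) (.node (.node (.leaf q220_10) (.leaf (.leaf 0))) (.node (.leaf q769_74) (.leaf (.leaf 0))))) (.node (.node (.leaf (.leaf 0)) (.node (.leaf q768_10) (.leaf (.leaf 0)))) (.node (.node (.leaf q512_10) (.leaf (.leaf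 0))) (.node (.leaf q896_74) (.leaf (.leaf 0))))))) (.node (.node (.node (.node (.node (.leaf q0_74) (.leaf q897_74)) (.node (.leaf q512_202) (.leaf (.leaf 0)))) (.node (.node (.leaf q192_138) (.leaf (.leaf 0))) (.node (.leaf q769_10) (.leaf (.leaf 0))))) (.node (.node (.node (.leaf q0_330) (.leaf (.leaf 0))) (.leaf (.leaf 0))) (.node (.node (.leaf q480_74) (.leaf (.leaf 0))) (.node (.leaf q896_10) (.leaf (.leaf 0)))))) (.node (.node (.node (.node (.leaf q0_202) (.leaf (.leaf 0))) (.node (.leaf q704_10) (.leaf (.leaf 0)))) (.node (.leaf (.leaf 0)) (.node (.leaf q788_10) (.leaf (.leaf 0))))) (.node (.node (.node (.leaf q192_10) (.leaf (.leaf 0))) (.node (.leaf q768_74) (.leaf (.leaf 0)))) (.node (.node (.leaf q512_74) (.leaf (.leaf 0))) (.node (.leaf q896_138) (.leaf (.leaf 0)))))))) (.node (.node (.node (.node (.node (.node (.leaf q0_42) (.leaf q897_42)) (.node (.leaf q512_170) (.leaf (.leaf 0)))) (.node (.node (.leaf q192_106) (.leaf (.leaf 0))) (.node (.leaf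 q768_170) (.leaf (.leaf 0))))) (.node (.node (.node (.leaf q0_298) (.leaf (.leaf 0))) (.node (.leaf q704_106) (.leaf (.leaf 0)))) (.node (.node (.leaf q480_42) (.leaf (.leaf 0))) (.leaf (.leaf 0))))) (.node (.node (.node (.node (.leaf q0_170) (.leaf (.leaf 0))) (.leaf (.leaf 0))) (.node (.node (.leaf q220_42) (.leaf (.leaf 0))) (.node (.leaf q769_106) (.leaf (.leaf 0))))) (.node (.node (.leaf (.leaf 0)) (.node (.leaf q768_42) (.leaf (.leaf 0)))) (.node (.node (.leaf q512_42) (.leaf (.leaf 0))) (.node (.leaf q896_106) (.leaf (.leaf 0))))))) (.node (.node (.node (.node (.node (.leaf q0_106) (.leaf (.leaf 0))) (.node (.leaf q512_234) (.leaf (.leaf 0)))) (.node (.node (.leaf q192_170) (.leaf (.leaf 0))) (.node (.leaf q769_42) (.leaf (.leaf 0))))) (.node (.node (.node (.leaf q0_362) (.leaf (.leaf 0))) (.leaf (.leaf 0))) (.node (.leaf (.leaf 0)) (.node (.leaf q896_42) (.leaf (.leaf 0)))))) (.node (.node (.node (.node (.leaf q0_234) (.leaf (.leaf 0))) (.node (.leaf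 q704_42) (.leaf (.leaf 0)))) (.node (.leaf (.leaf 0)) (.node (.leaf q788_42) (.leaf (.leaf 0))))) (.node (.node (.node (.leaf q192_42) (.leaf (.leaf 0))) (.node (.leaf q768_106) (.leaf (.leaf 0)))) (.node (.node (.leaf q512_106) (.leaf (.leaf 0))) (.leaf (.leaf 0)))))))) (.node (.node (.node (.node (.node (.node (.node (.leaf q0_26) (.leaf q897_26)) (.node (.leaf q512_154) (.leaf (.leaf 0)))) (.node (.node (.leaf q192_90) (.leaf (.leaf 0))) (.node (.leaf q768_154) (.leaf (.leaf 0))))) (.node (.node (.node (.leaf q0_282) (.leaf (.leaf 0))) (.node (.leaf q704_90) (.leaf (.leaf 0)))) (.node (.node (.leaf q480_26) (.leaf (.leaf 0))) (.node (.leaf q788_90) (.leaf (.leaf 0)))))) (.node (.node (.node (.node (.leaf q0_154) (.leaf (.leaf 0))) (.leaf (.leaf 0))) (.node (.node (.leaf q220_26) (.leaf (.leaf 0))) (.node (.leaf q769_90) (.leaf (.leaf 0))))) (.node (.node (.leaf (.leaf 0)) (.node (.leaf q768_26) (.leaf (.leaf 0)))) (.node (.node (.leaf q512_26) (.leaf (.leaf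 0))) (.node (.leaf q896_90) (.leaf (.leaf 0))))))) (.node (.node (.node (.node (.node (.leaf q0_90) (.leaf q897_90)) (.node (.leaf q512_218) (.leaf (.leaf 0)))) (.node (.node (.leaf q192_154) (.leaf (.leaf 0))) (.node (.leaf q769_26) (.leaf (.leaf 0))))) (.node (.node (.node (.leaf q0_346) (.leaf (.leaf 0))) (.leaf (.leaf 0))) (.node (.node (.leaf q480_90) (.leaf (.leaf 0))) (.node (.leaf q896_26) (.leaf (.leaf 0)))))) (.node (.node (.node (.node (.leaf q0_218) (.leaf (.leaf 0))) (.node (.leaf q704_26) (.leaf (.leaf 0)))) (.node (.leaf (.leaf 0)) (.node (.leaf q788_26) (.leaf (.leaf 0))))) (.node (.node (.node (.leaf q192_26) (.leaf (.leaf 0))) (.node (.leaf q768_90) (.leaf (.leaf 0)))) (.node (.node (.leaf q512_90) (.leaf (.leaf 0))) (.leaf (.leaf 0))))))) (.node (.node (.node (.node (.node (.node (.leaf q0_58) (.leaf q897_58)) (.node (.leaf q512_186) (.leaf (.leaf 0)))) (.node (.node (.leaf q192_122) (.leaf (.leaf 0))) (.node (.leaf q768_186) (.leaf (.leaf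 0))))) (.node (.node (.node (.leaf q0_314) (.leaf (.leaf 0))) (.node (.leaf q704_122) (.leaf (.leaf 0)))) (.node (.node (.leaf q480_58) (.leaf (.leaf 0))) (.leaf (.leaf 0))))) (.node (.node (.node (.node (.leaf q0_186) (.leaf (.leaf 0))) (.leaf (.leaf 0))) (.node (.node (.leaf q220_58) (.leaf (.leaf 0))) (.node (.leaf q769_122) (.leaf (.leaf 0))))) (.node (.node (.leaf (.leaf 0)) (.node (.leaf q768_58) (.leaf (.leaf 0)))) (.node (.node (.leaf q512_58) (.leaf (.leaf 0))) (.node (.leaf q896_122) (.leaf (.leaf 0))))))) (.node (.node (.node (.node (.node (.leaf q0_122) (.leaf (.leaf 0))) (.node (.leaf q512_250) (.leaf (.leaf 0)))) (.node (.leaf (.leaf 0)) (.node (.leaf q769_58) (.leaf (.leaf 0))))) (.node (.node (.node (.leaf q0_378) (.leaf (.leaf 0))) (.leaf (.leaf 0))) (.node (.leaf (.leaf 0)) (.node (.leaf q896_58) (.leaf (.leaf 0)))))) (.node (.node (.node (.node (.leaf q0_250) (.leaf (.leaf 0))) (.node (.leaf q704_58) (.leaf (.leaf 0)))) (.node (.leaf (.leaf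 0)) (.node (.leaf q788_58) (.leaf (.leaf 0))))) (.node (.node (.node (.leaf q192_58) (.leaf (.leaf 0))) (.node (.leaf q768_122) (.leaf (.leaf 0)))) (.node (.node (.leaf q512_122) (.leaf (.leaf 0))) (.leaf (.leaf 0)))))))))) (.node (.node (.node (.node (.node (.node (.node (.node (.node (.leaf q0_6) (.leaf q897_6)) (.node (.leaf q512_134) (.leaf (.leaf 0)))) (.node (.node (.leaf q192_70) (.leaf (.leaf 0))) (.node (.leaf q768_134) (.leaf (.leaf 0))))) (.node (.node (.node (.leaf q0_262) (.leaf (.leaf 0))) (.node (.leaf q704_70) (.leaf (.leaf 0)))) (.node (.node (.leaf q480_6) (.leaf (.leaf 0))) (.node (.leaf q788_70) (.leaf (.leaf 0)))))) (.node (.node (.node (.node (.leaf q0_134) (.leaf (.leaf 0))) (.leaf (.leaf 0))) (.node (.node (.leaf q220_6) (.leaf (.leaf 0))) (.node (.leaf q769_70) (.leaf (.leaf 0))))) (.node (.node (.leaf (.leaf 0)) (.node (.leaf q768_6) (.leaf (.leaf 0)))) (.node (.node (.leaf q512_6) (.leaf (.leaf 0))) (.node (.leaf q896_70) (.leaf (.leaf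 0))))))) (.node (.node (.node (.node (.node (.leaf q0_70) (.leaf q897_70)) (.node (.leaf q512_198) (.leaf (.leaf 0)))) (.node (.node (.leaf q192_134) (.leaf (.leaf 0))) (.node (.leaf q769_6) (.leaf (.leaf 0))))) (.node (.node (.node (.leaf q0_326) (.leaf (.leaf 0))) (.node (.leaf q704_134) (.leaf (.leaf 0)))) (.node (.node (.leaf q480_70) (.leaf (.leaf 0))) (.node (.leaf q896_6) (.leaf (.leaf 0)))))) (.node (.node (.node (.node (.leaf q0_198) (.leaf (.leaf 0))) (.node (.leaf q704_6) (.leaf (.leaf 0)))) (.node (.node (.leaf q220_70) (.leaf (.leaf 0))) (.node (.leaf q788_6) (.leaf (.leaf 0))))) (.node (.node (.node (.leaf q192_6) (.leaf (.leaf 0))) (.node (.leaf q768_70) (.leaf (.leaf 0)))) (.node (.node (.leaf q512_70) (.leaf (.leaf 0))) (.node (.leaf q896_134) (.leaf (.leaf 0)))))))) (.node (.node (.node (.node (.node (.node (.leaf q0_38) (.leaf q897_38)) (.node (.leaf q512_166) (.leaf (.leaf 0)))) (.node (.node (.leaf q192_102) (.leaf (.leaf 0))) (.node (.leaf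 q768_166) (.leaf (.leaf 0))))) (.node (.node (.node (.leaf q0_294) (.leaf (.leaf 0))) (.node (.leaf q704_102) (.leaf (.leaf 0)))) (.node (.node (.leaf q480_38) (.leaf (.leaf 0))) (.leaf (.leaf 0))))) (.node (.node (.node (.node (.leaf q0_166) (.leaf (.leaf 0))) (.leaf (.leaf 0))) (.node (.node (.leaf q220_38) (.leaf (.leaf 0))) (.node (.leaf q769_102) (.leaf (.leaf 0))))) (.node (.node (.leaf (.leaf 0)) (.node (.leaf q768_38) (.leaf (.leaf 0)))) (.node (.node (.leaf q512_38) (.leaf (.leaf 0))) (.node (.leaf q896_102) (.leaf (.leaf 0))))))) (.node (.node (.node (.node (.node (.leaf q0_102) (.leaf (.leaf 0))) (.node (.leaf q512_230) (.leaf (.leaf 0)))) (.node (.node (.leaf q192_166) (.leaf (.leaf 0))) (.node (.leaf q769_38) (.leaf (.leaf 0))))) (.node (.node (.node (.leaf q0_358) (.leaf (.leaf 0))) (.leaf (.leaf 0))) (.node (.leaf (.leaf 0)) (.node (.leaf q896_38) (.leaf (.leaf 0)))))) (.node (.node (.node (.node (.leaf q0_230) (.leaf (.leaf 0))) (.node (.leaf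 q704_38) (.leaf (.leaf 0)))) (.node (.leaf (.leaf 0)) (.node (.leaf q788_38) (.leaf (.leaf 0))))) (.node (.node (.node (.leaf q192_38) (.leaf (.leaf 0))) (.node (.leaf q768_102) (.leaf (.leaf 0)))) (.node (.node (.leaf q512_102) (.leaf (.leaf 0))) (.leaf (.leaf 0)))))))) (.node (.node (.node (.node (.node (.node (.node (.leaf q0_22) (.leaf q897_22)) (.node (.leaf q512_150) (.leaf (.leaf 0)))) (.node (.node (.leaf q192_86) (.leaf (.leaf 0))) (.node (.leaf q768_150) (.leaf (.leaf 0))))) (.node (.node (.node (.leaf q0_278) (.leaf (.leaf 0))) (.node (.leaf q704_86) (.leaf (.leaf 0)))) (.node (.node (.leaf q480_22) (.leaf (.leaf 0))) (.node (.leaf q788_86) (.leaf (.leaf 0)))))) (.node (.node (.node (.node (.leaf q0_150) (.leaf (.leaf 0))) (.leaf (.leaf 0))) (.node (.node (.leaf q220_22) (.leaf (.leaf 0))) (.node (.leaf q769_86) (.leaf (.leaf 0))))) (.node (.node (.leaf (.leaf 0)) (.node (.leaf q768_22) (.leaf (.leaf 0)))) (.node (.node (.leaf q512_22) (.leaf (.leaf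 0))) (.node (.leaf q896_86) (.leaf (.leaf 0))))))) (.node (.node (.node (.node (.node (.leaf q0_86) (.leaf q897_86)) (.node (.leaf q512_214) (.leaf (.leaf 0)))) (.node (.node (.leaf q192_150) (.leaf (.leaf 0))) (.node (.leaf q769_22) (.leaf (.leaf 0))))) (.node (.node (.node (.leaf q0_342) (.leaf (.leaf 0))) (.leaf (.leaf 0))) (.node (.node (.leaf q480_86) (.leaf (.leaf 0))) (.node (.leaf q896_22) (.leaf (.leaf 0)))))) (.node (.node (.node (.node (.leaf q0_214) (.leaf (.leaf 0))) (.node (.leaf q704_22) (.leaf (.leaf 0)))) (.node (.leaf (.leaf 0)) (.node (.leaf q788_22) (.leaf (.leaf 0))))) (.node (.node (.node (.leaf q192_22) (.leaf (.leaf 0))) (.node (.leaf q768_86) (.leaf (.leaf 0)))) (.node (.node (.leaf q512_86) (.leaf (.leaf 0))) (.leaf (.leaf 0))))))) (.node (.node (.node (.node (.node (.node (.leaf q0_54) (.leaf q897_54)) (.node (.leaf q512_182) (.leaf (.leaf 0)))) (.node (.node (.leaf q192_118) (.leaf (.leaf 0))) (.node (.leaf q768_182) (.leaf (.leaf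 0))))) (.node (.node (.node (.leaf q0_310) (.leaf (.leaf 0))) (.node (.leaf q704_118) (.leaf (.leaf 0)))) (.node (.node (.leaf q480_54) (.leaf (.leaf 0))) (.leaf (.leaf 0))))) (.node (.node (.node (.node (.leaf q0_182) (.leaf (.leaf 0))) (.leaf (.leaf 0))) (.node (.node (.leaf q220_54) (.leaf (.leaf 0))) (.node (.leaf q769_118) (.leaf (.leaf 0))))) (.node (.node (.leaf (.leaf 0)) (.node (.leaf q768_54) (.leaf (.leaf 0)))) (.node (.node (.leaf q512_54) (.leaf (.leaf 0))) (.node (.leaf q896_118) (.leaf (.leaf 0))))))) (.node (.node (.node (.node (.node (.leaf q0_118) (.leaf (.leaf 0))) (.node (.leaf q512_246) (.leaf (.leaf 0)))) (.node (.leaf (.leaf 0)) (.node (.leaf q769_54) (.leaf (.leaf 0))))) (.node (.node (.node (.leaf q0_374) (.leaf (.leaf 0))) (.leaf (.leaf 0))) (.node (.leaf (.leaf 0)) (.node (.leaf q896_54) (.leaf (.leaf 0)))))) (.node (.node (.node (.node (.leaf q0_246) (.leaf (.leaf 0))) (.node (.leaf q704_54) (.leaf (.leaf 0)))) (.node (.leaf (.leaf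 0)) (.node (.leaf q788_54) (.leaf (.leaf 0))))) (.node (.node (.node (.leaf q192_54) (.leaf (.leaf 0))) (.node (.leaf q768_118) (.leaf (.leaf 0)))) (.node (.node (.leaf q512_118) (.leaf (.leaf 0))) (.leaf (.leaf 0))))))))) (.node (.node (.node (.node (.node (.node (.node (.node (.leaf q0_14) (.leaf q897_14)) (.node (.leaf q512_142) (.leaf (.leaf 0)))) (.node (.node (.leaf q192_78) (.leaf (.leaf 0))) (.node (.leaf q768_142) (.leaf (.leaf 0))))) (.node (.node (.node (.leaf q0_270) (.leaf (.leaf 0))) (.node (.leaf q704_78) (.leaf (.leaf 0)))) (.node (.node (.leaf q480_14) (.leaf (.leaf 0))) (.node (.leaf q788_78) (.leaf (.leaf 0)))))) (.node (.node (.node (.node (.leaf q0_142) (.leaf (.leaf 0))) (.leaf (.leaf 0))) (.node (.node (.leaf q220_14) (.leaf (.leaf 0))) (.node (.leaf q769_78) (.leaf (.leaf 0))))) (.node (.node (.leaf (.leaf 0)) (.node (.leaf q768_14) (.leaf (.leaf 0)))) (.node (.node (.leaf q512_14) (.leaf (.leaf 0))) (.node (.leaf q896_78) (.leaf (.leaf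 0))))))) (.node (.node (.node (.node (.node (.leaf q0_78) (.leaf q897_78)) (.node (.leaf q512_206) (.leaf (.leaf 0)))) (.node (.node (.leaf q192_142) (.leaf (.leaf 0))) (.node (.leaf q769_14) (.leaf (.leaf 0))))) (.node (.node (.node (.leaf q0_334) (.leaf (.leaf 0))) (.leaf (.leaf 0))) (.node (.node (.leaf q480_78) (.leaf (.leaf 0))) (.node (.leaf q896_14) (.leaf (.leaf 0)))))) (.node (.node (.node (.node (.leaf q0_206) (.leaf (.leaf 0))) (.node (.leaf q704_14) (.leaf (.leaf 0)))) (.node (.leaf (.leaf 0)) (.node (.leaf q788_14) (.leaf (.leaf 0))))) (.node (.node (.node (.leaf q192_14) (.leaf (.leaf 0))) (.node (.leaf q768_78) (.leaf (.leaf 0)))) (.node (.node (.leaf q512_78) (.leaf (.leaf 0))) (.node (.leaf q896_142) (.leaf (.leaf 0)))))))) (.node (.node (.node (.node (.node (.node (.leaf q0_46) (.leaf q897_46)) (.node (.leaf q512_174) (.leaf (.leaf 0)))) (.node (.node (.leaf q192_110) (.leaf (.leaf 0))) (.node (.leaf q768_174) (.leaf (.leaf 0))))) (.node (.node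 (.node (.leaf q0_302) (.leaf (.leaf 0))) (.node (.leaf q704_110) (.leaf (.leaf 0)))) (.node (.node (.leaf q480_46) (.leaf (.leaf 0))) (.leaf (.leaf 0))))) (.node (.node (.node (.node (.leaf q0_174) (.leaf (.leaf 0))) (.leaf (.leaf 0))) (.node (.node (.leaf q220_46) (.leaf (.leaf 0))) (.node (.leaf q769_110) (.leaf (.leaf 0))))) (.node (.node (.leaf (.leaf 0)) (.node (.leaf q768_46) (.leaf (.leaf 0)))) (.node (.node (.leaf q512_46) (.leaf (.leaf 0))) (.node (.leaf q896_110) (.leaf (.leaf 0))))))) (.node (.node (.node (.node (.node (.leaf q0_110) (.leaf (.leaf 0))) (.node (.leaf q512_238) (.leaf (.leaf 0)))) (.node (.leaf (.leaf 0)) (.node (.leaf q769_46) (.leaf (.leaf 0))))) (.node (.node (.node (.leaf q0_366) (.leaf (.leaf 0))) (.leaf (.leaf 0))) (.node (.leaf (.leaf 0)) (.node (.leaf q896_46) (.leaf (.leaf 0)))))) (.node (.node (.node (.node (.leaf q0_238) (.leaf (.leaf 0))) (.node (.leaf q704_46) (.leaf (.leaf 0)))) (.node (.leaf (.leaf 0)) (.node (.leaf q788_46)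 (.leaf (.leaf 0))))) (.node (.node (.node (.leaf q192_46) (.leaf (.leaf 0))) (.node (.leaf q768_110) (.leaf (.leaf 0)))) (.node (.node (.leaf q512_110) (.leaf (.leaf 0))) (.leaf (.leaf 0)))))))) (.node (.node (.node (.node (.node (.node (.node (.leaf q0_30) (.leaf q897_30)) (.node (.leaf q512_158) (.leaf (.leaf 0)))) (.node (.node (.leaf q192_94) (.leaf (.leaf 0))) (.node (.leaf q768_158) (.leaf (.leaf 0))))) (.node (.node (.node (.leaf q0_286) (.leaf (.leaf 0))) (.node (.leaf q704_94) (.leaf (.leaf 0)))) (.node (.node (.leaf q480_30) (.leaf (.leaf 0))) (.node (.leaf q788_94) (.leaf (.leaf 0)))))) (.node (.node (.node (.node (.leaf q0_158) (.leaf (.leaf 0))) (.leaf (.leaf 0))) (.node (.node (.leaf q220_30) (.leaf (.leaf 0))) (.node (.leaf q769_94) (.leaf (.leaf 0))))) (.node (.node (.leaf (.leaf 0)) (.node (.leaf q768_30) (.leaf (.leaf 0)))) (.node (.node (.leaf q512_30) (.leaf (.leaf 0))) (.node (.leaf q896_94) (.leaf (.leaf 0))))))) (.node (.node (.node (.node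 (.node (.leaf q0_94) (.leaf (.leaf 0))) (.node (.leaf q512_222) (.leaf (.leaf 0)))) (.node (.node (.leaf q192_158) (.leaf (.leaf 0))) (.node (.leaf q769_30) (.leaf (.leaf 0))))) (.node (.node (.node (.leaf q0_350) (.leaf (.leaf 0))) (.leaf (.leaf 0))) (.node (.node (.leaf q480_94) (.leaf (.leaf 0))) (.node (.leaf q896_30) (.leaf (.leaf 0)))))) (.node (.node (.node (.node (.leaf q0_222) (.leaf (.leaf 0))) (.node (.leaf q704_30) (.leaf (.leaf 0)))) (.node (.leaf (.leaf 0)) (.node (.leaf q788_30) (.leaf (.leaf 0))))) (.node (.node (.node (.leaf q192_30) (.leaf (.leaf 0))) (.node (.leaf q768_94) (.leaf (.leaf 0)))) (.node (.node (.leaf q512_94) (.leaf (.leaf 0))) (.leaf (.leaf 0))))))) (.node (.node (.node (.node (.node (.node (.leaf q0_62) (.leaf q897_62)) (.node (.leaf q512_190) (.leaf (.leaf 0)))) (.node (.node (.leaf q192_126) (.leaf (.leaf 0))) (.node (.leaf q768_190) (.leaf (.leaf 0))))) (.node (.node (.node (.leaf q0_318) (.leaf (.leaf 0))) (.node (.leaf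 q704_126) (.leaf (.leaf 0)))) (.node (.node (.leaf q480_62) (.leaf (.leaf 0))) (.leaf (.leaf 0))))) (.node (.node (.node (.node (.leaf q0_190) (.leaf (.leaf 0))) (.leaf (.leaf 0))) (.node (.node (.leaf q220_62) (.leaf (.leaf 0))) (.leaf (.leaf 0)))) (.node (.node (.leaf (.leaf 0)) (.node (.leaf q768_62) (.leaf (.leaf 0)))) (.node (.node (.leaf q512_62) (.leaf (.leaf 0))) (.node (.leaf q896_126) (.leaf (.leaf 0))))))) (.node (.node (.node (.node (.node (.leaf q0_126) (.leaf (.leaf 0))) (.node (.leaf q512_254) (.leaf (.leaf 0)))) (.node (.leaf (.leaf 0)) (.node (.leaf q769_62) (.leaf (.leaf 0))))) (.node (.node (.node (.leaf q0_382) (.leaf (.leaf 0))) (.leaf (.leaf 0))) (.node (.leaf (.leaf 0)) (.node (.leaf q896_62) (.leaf (.leaf 0)))))) (.node (.node (.node (.node (.leaf q0_254) (.leaf (.leaf 0))) (.node (.leaf q704_62) (.leaf (.leaf 0)))) (.node (.leaf (.leaf 0)) (.node (.leaf q788_62) (.leaf (.leaf 0))))) (.node (.node (.node (.leaf q192_62) (.leaf (.leaf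 0))) (.node (.leaf q768_126) (.leaf (.leaf 0)))) (.node (.node (.leaf q512_126) (.leaf (.leaf 0))) (.leaf (.leaf 0)))))))))))) (.node (.node (.node (.node (.node (.node (.node (.node (.node (.node (.node (.leaf q0_1) (.leaf q897_1)) (.node (.leaf q512_129) (.leaf (.leaf 0)))) (.node (.node (.leaf q192_65) (.leaf (.leaf 0))) (.node (.leaf q768_129) (.leaf (.leaf 0))))) (.node (.node (.node (.leaf q0_257) (.leaf (.leaf 0))) (.node (.leaf q704_65) (.leaf (.leaf 0)))) (.node (.node (.leaf q480_1) (.leaf (.leaf 0))) (.node (.leaf q788_65) (.leaf (.leaf 0)))))) (.node (.node (.node (.node (.leaf q0_129) (.leaf (.leaf 0))) (.node (.leaf q512_257) (.leaf (.leaf 0)))) (.node (.node (.leaf q220_1) (.leaf (.leaf 0))) (.node (.leaf q769_65) (.leaf (.leaf 0))))) (.node (.node (.node (.leaf q0_385) (.leaf (.leaf 0))) (.node (.leaf q768_1) (.leaf (.leaf 0)))) (.node (.node (.leaf q512_1) (.leaf (.leaf 0))) (.node (.leaf q896_65) (.leaf (.leaf 0))))))) (.node (.node (.node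 (.node (.node (.leaf q0_65) (.leaf q897_65)) (.node (.leaf q512_193) (.leaf (.leaf 0)))) (.node (.node (.leaf q192_129) (.leaf (.leaf 0))) (.node (.leaf q769_1) (.leaf (.leaf 0))))) (.node (.node (.node (.leaf q0_321) (.leaf (.leaf 0))) (.node (.leaf q704_129) (.leaf (.leaf 0)))) (.node (.node (.leaf q480_65) (.leaf (.leaf 0))) (.node (.leaf q896_1) (.leaf (.leaf 0)))))) (.node (.node (.node (.node (.leaf q0_193) (.leaf (.leaf 0))) (.node (.leaf q704_1) (.leaf (.leaf 0)))) (.node (.node (.leaf q220_65) (.leaf (.leaf 0))) (.node (.leaf q788_1) (.leaf (.leaf 0))))) (.node (.node (.node (.leaf q192_1) (.leaf (.leaf 0))) (.node (.leaf q768_65) (.leaf (.leaf 0)))) (.node (.node (.leaf q512_65) (.leaf (.leaf 0))) (.node (.leaf q896_129) (.leaf (.leaf 0)))))))) (.node (.node (.node (.node (.node (.node (.leaf q0_33) (.leaf q897_33)) (.node (.leaf q512_161) (.leaf (.leaf 0)))) (.node (.node (.leaf q192_97) (.leaf (.leaf 0))) (.node (.leaf q768_161) (.leaf (.leaf 0)))))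 (.node (.node (.node (.leaf q0_289) (.leaf (.leaf 0))) (.node (.leaf q704_97) (.leaf (.leaf 0)))) (.node (.node (.leaf q480_33) (.leaf (.leaf 0))) (.leaf (.leaf 0))))) (.node (.node (.node (.node (.leaf q0_161) (.leaf (.leaf 0))) (.leaf (.leaf 0))) (.node (.node (.leaf q220_33) (.leaf (.leaf 0))) (.node (.leaf q769_97) (.leaf (.leaf 0))))) (.node (.node (.leaf (.leaf 0)) (.node (.leaf q768_33) (.leaf (.leaf 0)))) (.node (.node (.leaf q512_33) (.leaf (.leaf 0))) (.node (.leaf q896_97) (.leaf (.leaf 0))))))) (.node (.node (.node (.node (.node (.leaf q0_97) (.leaf (.leaf 0))) (.node (.leaf q512_225) (.leaf (.leaf 0)))) (.node (.node (.leaf q192_161) (.leaf (.leaf 0))) (.node (.leaf q769_33) (.leaf (.leaf 0))))) (.node (.node (.node (.leaf q0_353) (.leaf (.leaf 0))) (.leaf (.leaf 0))) (.node (.node (.leaf q480_97) (.leaf (.leaf 0))) (.node (.leaf q896_33) (.leaf (.leaf 0)))))) (.node (.node (.node (.node (.leaf q0_225) (.leaf (.leaf 0))) (.node (.leaf q704_33) (.leaf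 (.leaf 0)))) (.node (.leaf (.leaf 0)) (.node (.leaf q788_33) (.leaf (.leaf 0))))) (.node (.node (.node (.leaf q192_33) (.leaf (.leaf 0))) (.node (.leaf q768_97) (.leaf (.leaf 0)))) (.node (.node (.leaf q512_97) (.leaf (.leaf 0))) (.leaf (.leaf 0)))))))) (.node (.node (.node (.node (.node (.node (.node (.leaf q0_17) (.leaf q897_17)) (.node (.leaf q512_145) (.leaf (.leaf 0)))) (.node (.node (.leaf q192_81) (.leaf (.leaf 0))) (.node (.leaf q768_145) (.leaf (.leaf 0))))) (.node (.node (.node (.leaf q0_273) (.leaf (.leaf 0))) (.node (.leaf q704_81) (.leaf (.leaf 0)))) (.node (.node (.leaf q480_17) (.leaf (.leaf 0))) (.node (.leaf q788_81) (.leaf (.leaf 0)))))) (.node (.node (.node (.node (.leaf q0_145) (.leaf (.leaf 0))) (.leaf (.leaf 0))) (.node (.node (.leaf q220_17) (.leaf (.leaf 0))) (.node (.leaf q769_81) (.leaf (.leaf 0))))) (.node (.node (.leaf (.leaf 0)) (.node (.leaf q768_17) (.leaf (.leaf 0)))) (.node (.node (.leaf q512_17) (.leaf (.leaf 0))) (.node (.leaf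 q896_81) (.leaf (.leaf 0))))))) (.node (.node (.node (.node (.node (.leaf q0_81) (.leaf q897_81)) (.node (.leaf q512_209) (.leaf (.leaf 0)))) (.node (.node (.leaf q192_145) (.leaf (.leaf 0))) (.node (.leaf q769_17) (.leaf (.leaf 0))))) (.node (.node (.node (.leaf q0_337) (.leaf (.leaf 0))) (.leaf (.leaf 0))) (.node (.node (.leaf q480_81) (.leaf (.leaf 0))) (.node (.leaf q896_17) (.leaf (.leaf 0)))))) (.node (.node (.node (.node (.leaf q0_209) (.leaf (.leaf 0))) (.node (.leaf q704_17) (.leaf (.leaf 0)))) (.node (.leaf (.leaf 0)) (.node (.leaf q788_17) (.leaf (.leaf 0))))) (.node (.node (.node (.leaf q192_17) (.leaf (.leaf 0))) (.node (.leaf q768_81) (.leaf (.leaf 0)))) (.node (.node (.leaf q512_81) (.leaf (.leaf 0))) (.node (.leaf q896_145) (.leaf (.leaf 0)))))))) (.node (.node (.node (.node (.node (.node (.leaf q0_49) (.leaf q897_49)) (.node (.leaf q512_177) (.leaf (.leaf 0)))) (.node (.node (.leaf q192_113) (.leaf (.leaf 0))) (.node (.leaf q768_177) (.leaf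 (.leaf 0))))) (.node (.node (.node (.leaf q0_305) (.leaf (.leaf 0))) (.node (.leaf q704_113) (.leaf (.leaf 0)))) (.node (.node (.leaf q480_49) (.leaf (.leaf 0))) (.leaf (.leaf 0))))) (.node (.node (.node (.node (.leaf q0_177) (.leaf (.leaf 0))) (.leaf (.leaf 0))) (.node (.node (.leaf q220_49) (.leaf (.leaf 0))) (.node (.leaf q769_113) (.leaf (.leaf 0))))) (.node (.node (.leaf (.leaf 0)) (.node (.leaf q768_49) (.leaf (.leaf 0)))) (.node (.node (.leaf q512_49) (.leaf (.leaf 0))) (.node (.leaf q896_113) (.leaf (.leaf 0))))))) (.node (.node (.node (.node (.node (.leaf q0_113) (.leaf (.leaf 0))) (.node (.leaf q512_241) (.leaf (.leaf 0)))) (.node (.leaf (.leaf 0)) (.node (.leaf q769_49) (.leaf (.leaf 0))))) (.node (.node (.node (.leaf q0_369) (.leaf (.leaf 0))) (.leaf (.leaf 0))) (.node (.leaf (.leaf 0)) (.node (.leaf q896_49) (.leaf (.leaf 0)))))) (.node (.node (.node (.node (.leaf q0_241) (.leaf (.leaf 0))) (.node (.leaf q704_49) (.leaf (.leaf 0)))) (.node (.leaf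 (.leaf 0)) (.node (.leaf q788_49) (.leaf (.leaf 0))))) (.node (.node (.node (.leaf q192_49) (.leaf (.leaf 0))) (.node (.leaf q768_113) (.leaf (.leaf 0)))) (.node (.node (.leaf q512_113) (.leaf (.leaf 0))) (.leaf (.leaf 0))))))))) (.node (.node (.node (.node (.node (.node (.node (.node (.leaf q0_9) (.leaf q897_9)) (.node (.leaf q512_137) (.leaf (.leaf 0)))) (.node (.node (.leaf q192_73) (.leaf (.leaf 0))) (.node (.leaf q768_137) (.leaf (.leaf 0))))) (.node (.node (.node (.leaf q0_265) (.leaf (.leaf 0))) (.node (.leaf q704_73) (.leaf (.leaf 0)))) (.node (.node (.leaf q480_9) (.leaf (.leaf 0))) (.node (.leaf q788_73) (.leaf (.leaf 0)))))) (.node (.node (.node (.node (.leaf q0_137) (.leaf (.leaf 0))) (.leaf (.leaf 0))) (.node (.node (.leaf q220_9) (.leaf (.leaf 0))) (.node (.leaf q769_73) (.leaf (.leaf 0))))) (.node (.node (.leaf (.leaf 0)) (.node (.leaf q768_9) (.leaf (.leaf 0)))) (.node (.node (.leaf q512_9) (.leaf (.leaf 0))) (.node (.leaf q896_73) (.leaf (.leaf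 0))))))) (.node (.node (.node (.node (.node (.leaf q0_73) (.leaf q897_73)) (.node (.leaf q512_201) (.leaf (.leaf 0)))) (.node (.node (.leaf q192_137) (.leaf (.leaf 0))) (.node (.leaf q769_9) (.leaf (.leaf 0))))) (.node (.node (.node (.leaf q0_329) (.leaf (.leaf 0))) (.leaf (.leaf 0))) (.node (.node (.leaf q480_73) (.leaf (.leaf 0))) (.node (.leaf q896_9) (.leaf (.leaf 0)))))) (.node (.node (.node (.node (.leaf q0_201) (.leaf (.leaf 0))) (.node (.leaf q704_9) (.leaf (.leaf 0)))) (.node (.leaf (.leaf 0)) (.node (.leaf q788_9) (.leaf (.leaf 0))))) (.node (.node (.node (.leaf q192_9) (.leaf (.leaf 0))) (.node (.leaf q768_73) (.leaf (.leaf 0)))) (.node (.node (.leaf q512_73) (.leaf (.leaf 0))) (.node (.leaf q896_137) (.leaf (.leaf 0)))))))) (.node (.node (.node (.node (.node (.node (.leaf q0_41) (.leaf q897_41)) (.node (.leaf q512_169) (.leaf (.leaf 0)))) (.node (.node (.leaf q192_105) (.leaf (.leaf 0))) (.node (.leaf q768_169) (.leaf (.leaf 0))))) (.node (.node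 (.node (.leaf q0_297) (.leaf (.leaf 0))) (.node (.leaf q704_105) (.leaf (.leaf 0)))) (.node (.node (.leaf q480_41) (.leaf (.leaf 0))) (.leaf (.leaf 0))))) (.node (.node (.node (.node (.leaf q0_169) (.leaf (.leaf 0))) (.leaf (.leaf 0))) (.node (.node (.leaf q220_41) (.leaf (.leaf 0))) (.node (.leaf q769_105) (.leaf (.leaf 0))))) (.node (.node (.leaf (.leaf 0)) (.node (.leaf q768_41) (.leaf (.leaf 0)))) (.node (.node (.leaf q512_41) (.leaf (.leaf 0))) (.node (.leaf q896_105) (.leaf (.leaf 0))))))) (.node (.node (.node (.node (.node (.leaf q0_105) (.leaf (.leaf 0))) (.node (.leaf q512_233) (.leaf (.leaf 0)))) (.node (.node (.leaf q192_169) (.leaf (.leaf 0))) (.node (.leaf q769_41) (.leaf (.leaf 0))))) (.node (.node (.node (.leaf q0_361) (.leaf (.leaf 0))) (.leaf (.leaf 0))) (.node (.leaf (.leaf 0)) (.node (.leaf q896_41) (.leaf (.leaf 0)))))) (.node (.node (.node (.node (.leaf q0_233) (.leaf (.leaf 0))) (.node (.leaf q704_41) (.leaf (.leaf 0)))) (.node (.leaf (.leaf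 0)) (.node (.leaf q788_41) (.leaf (.leaf 0))))) (.node (.node (.node (.leaf q192_41) (.leaf (.leaf 0))) (.node (.leaf q768_105) (.leaf (.leaf 0)))) (.node (.node (.leaf q512_105) (.leaf (.leaf 0))) (.leaf (.leaf 0)))))))) (.node (.node (.node (.node (.node (.node (.node (.leaf q0_25) (.leaf q897_25)) (.node (.leaf q512_153) (.leaf (.leaf 0)))) (.node (.node (.leaf q192_89) (.leaf (.leaf 0))) (.node (.leaf q768_153) (.leaf (.leaf 0))))) (.node (.node (.node (.leaf q0_281) (.leaf (.leaf 0))) (.node (.leaf q704_89) (.leaf (.leaf 0)))) (.node (.node (.leaf q480_25) (.leaf (.leaf 0))) (.node (.leaf q788_89) (.leaf (.leaf 0)))))) (.node (.node (.node (.node (.leaf q0_153) (.leaf (.leaf 0))) (.leaf (.leaf 0))) (.node (.node (.leaf q220_25) (.leaf (.leaf 0))) (.node (.leaf q769_89) (.leaf (.leaf 0))))) (.node (.node (.leaf (.leaf 0)) (.node (.leaf q768_25) (.leaf (.leaf 0)))) (.node (.node (.leaf q512_25) (.leaf (.leaf 0))) (.node (.leaf q896_89) (.leaf (.leaf 0)))))))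 (.node (.node (.node (.node (.node (.leaf q0_89) (.leaf q897_89)) (.node (.leaf q512_217) (.leaf (.leaf 0)))) (.node (.node (.leaf q192_153) (.leaf (.leaf 0))) (.node (.leaf q769_25) (.leaf (.leaf 0))))) (.node (.node (.node (.leaf q0_345) (.leaf (.leaf 0))) (.leaf (.leaf 0))) (.node (.node (.leaf q480_89) (.leaf (.leaf 0))) (.node (.leaf q896_25) (.leaf (.leaf 0)))))) (.node (.node (.node (.node (.leaf q0_217) (.leaf (.leaf 0))) (.node (.leaf q704_25) (.leaf (.leaf 0)))) (.node (.leaf (.leaf 0)) (.node (.leaf q788_25) (.leaf (.leaf 0))))) (.node (.node (.node (.leaf q192_25) (.leaf (.leaf 0))) (.node (.leaf q768_89) (.leaf (.leaf 0)))) (.node (.node (.leaf q512_89) (.leaf (.leaf 0))) (.leaf (.leaf 0))))))) (.node (.node (.node (.node (.node (.node (.leaf q0_57) (.leaf q897_57)) (.node (.leaf q512_185) (.leaf (.leaf 0)))) (.node (.node (.leaf q192_121) (.leaf (.leaf 0))) (.node (.leaf q768_185) (.leaf (.leaf 0))))) (.node (.node (.node (.leaf q0_313) (.leaf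 (.leaf 0))) (.node (.leaf q704_121) (.leaf (.leaf 0)))) (.node (.node (.leaf q480_57) (.leaf (.leaf 0))) (.leaf (.leaf 0))))) (.node (.node (.node (.node (.leaf q0_185) (.leaf (.leaf 0))) (.leaf (.leaf 0))) (.node (.node (.leaf q220_57) (.leaf (.leaf 0))) (.node (.leaf q769_121) (.leaf (.leaf 0))))) (.node (.node (.leaf (.leaf 0)) (.node (.leaf q768_57) (.leaf (.leaf 0)))) (.node (.node (.leaf q512_57) (.leaf (.leaf 0))) (.node (.leaf q896_121) (.leaf (.leaf 0))))))) (.node (.node (.node (.node (.node (.leaf q0_121) (.leaf (.leaf 0))) (.node (.leaf q512_249) (.leaf (.leaf 0)))) (.node (.leaf (.leaf 0)) (.node (.leaf q769_57) (.leaf (.leaf 0))))) (.node (.node (.node (.leaf q0_377) (.leaf (.leaf 0))) (.leaf (.leaf 0))) (.node (.leaf (.leaf 0)) (.node (.leaf q896_57) (.leaf (.leaf 0)))))) (.node (.node (.node (.node (.leaf q0_249) (.leaf (.leaf 0))) (.node (.leaf q704_57) (.leaf (.leaf 0)))) (.node (.leaf (.leaf 0)) (.node (.leaf q788_57) (.leaf (.leaf 0)))))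 (.node (.node (.node (.leaf q192_57) (.leaf (.leaf 0))) (.node (.leaf q768_121) (.leaf (.leaf 0)))) (.node (.node (.leaf q512_121) (.leaf (.leaf 0))) (.leaf (.leaf 0)))))))))) (.node (.node (.node (.node (.node (.node (.node (.node (.node (.leaf q0_5) (.leaf q897_5)) (.node (.leaf q512_133) (.leaf (.leaf 0)))) (.node (.node (.leaf q192_69) (.leaf (.leaf 0))) (.node (.leaf q768_133) (.leaf (.leaf 0))))) (.node (.node (.node (.leaf q0_261) (.leaf (.leaf 0))) (.node (.leaf q704_69) (.leaf (.leaf 0)))) (.node (.node (.leaf q480_5) (.leaf (.leaf 0))) (.node (.leaf q788_69) (.leaf (.leaf 0)))))) (.node (.node (.node (.node (.leaf q0_133) (.leaf (.leaf 0))) (.node (.leaf q512_261) (.leaf (.leaf 0)))) (.node (.node (.leaf q220_5) (.leaf (.leaf 0))) (.node (.leaf q769_69) (.leaf (.leaf 0))))) (.node (.node (.leaf (.leaf 0)) (.node (.leaf q768_5) (.leaf (.leaf 0)))) (.node (.node (.leaf q512_5) (.leaf (.leaf 0))) (.node (.leaf q896_69) (.leaf (.leaf 0))))))) (.node (.node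 (.node (.node (.node (.leaf q0_69) (.leaf q897_69)) (.node (.leaf q512_197) (.leaf (.leaf 0)))) (.node (.node (.leaf q192_133) (.leaf (.leaf 0))) (.node (.leaf q769_5) (.leaf (.leaf 0))))) (.node (.node (.node (.leaf q0_325) (.leaf (.leaf 0))) (.node (.leaf q704_133) (.leaf (.leaf 0)))) (.node (.node (.leaf q480_69) (.leaf (.leaf 0))) (.node (.leaf q896_5) (.leaf (.leaf 0)))))) (.node (.node (.node (.node (.leaf q0_197) (.leaf (.leaf 0))) (.node (.leaf q704_5) (.leaf (.leaf 0)))) (.node (.node (.leaf q220_69) (.leaf (.leaf 0))) (.node (.leaf q788_5) (.leaf (.leaf 0))))) (.node (.node (.node (.leaf q192_5) (.leaf (.leaf 0))) (.node (.leaf q768_69) (.leaf (.leaf 0)))) (.node (.node (.leaf q512_69) (.leaf (.leaf 0))) (.node (.leaf q896_133) (.leaf (.leaf 0)))))))) (.node (.node (.node (.node (.node (.node (.leaf q0_37) (.leaf q897_37)) (.node (.leaf q512_165) (.leaf (.leaf 0)))) (.node (.node (.leaf q192_101) (.leaf (.leaf 0))) (.node (.leaf q768_165) (.leaf (.leaf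 0))))) (.node (.node (.node (.leaf q0_293) (.leaf (.leaf 0))) (.node (.leaf q704_101) (.leaf (.leaf 0)))) (.node (.node (.leaf q480_37) (.leaf (.leaf 0))) (.leaf (.leaf 0))))) (.node (.node (.node (.node (.leaf q0_165) (.leaf (.leaf 0))) (.leaf (.leaf 0))) (.node (.node (.leaf q220_37) (.leaf (.leaf 0))) (.node (.leaf q769_101) (.leaf (.leaf 0))))) (.node (.node (.leaf (.leaf 0)) (.node (.leaf q768_37) (.leaf (.leaf 0)))) (.node (.node (.leaf q512_37) (.leaf (.leaf 0))) (.node (.leaf q896_101) (.leaf (.leaf 0))))))) (.node (.node (.node (.node (.node (.leaf q0_101) (.leaf (.leaf 0))) (.node (.leaf q512_229) (.leaf (.leaf 0)))) (.node (.node (.leaf q192_165) (.leaf (.leaf 0))) (.node (.leaf q769_37) (.leaf (.leaf 0))))) (.node (.node (.node (.leaf q0_357) (.leaf (.leaf 0))) (.leaf (.leaf 0))) (.node (.leaf (.leaf 0)) (.node (.leaf q896_37) (.leaf (.leaf 0)))))) (.node (.node (.node (.node (.leaf q0_229) (.leaf (.leaf 0))) (.node (.leaf q704_37) (.leaf (.leaf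 0)))) (.node (.leaf (.leaf 0)) (.node (.leaf q788_37) (.leaf (.leaf 0))))) (.node (.node (.node (.leaf q192_37) (.leaf (.leaf 0))) (.node (.leaf q768_101) (.leaf (.leaf 0)))) (.node (.node (.leaf q512_101) (.leaf (.leaf 0))) (.leaf (.leaf 0)))))))) (.node (.node (.node (.node (.node (.node (.node (.leaf q0_21) (.leaf q897_21)) (.node (.leaf q512_149) (.leaf (.leaf 0)))) (.node (.node (.leaf q192_85) (.leaf (.leaf 0))) (.node (.leaf q768_149) (.leaf (.leaf 0))))) (.node (.node (.node (.leaf q0_277) (.leaf (.leaf 0))) (.node (.leaf q704_85) (.leaf (.leaf 0)))) (.node (.node (.leaf q480_21) (.leaf (.leaf 0))) (.node (.leaf q788_85) (.leaf (.leaf 0)))))) (.node (.node (.node (.node (.leaf q0_149) (.leaf (.leaf 0))) (.leaf (.leaf 0))) (.node (.node (.leaf q220_21) (.leaf (.leaf 0))) (.node (.leaf q769_85) (.leaf (.leaf 0))))) (.node (.node (.leaf (.leaf 0)) (.node (.leaf q768_21) (.leaf (.leaf 0)))) (.node (.node (.leaf q512_21) (.leaf (.leaf 0))) (.node (.leaf q896_85)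 (.leaf (.leaf 0))))))) (.node (.node (.node (.node (.node (.leaf q0_85) (.leaf q897_85)) (.node (.leaf q512_213) (.leaf (.leaf 0)))) (.node (.node (.leaf q192_149) (.leaf (.leaf 0))) (.node (.leaf q769_21) (.leaf (.leaf 0))))) (.node (.node (.node (.leaf q0_341) (.leaf (.leaf 0))) (.leaf (.leaf 0))) (.node (.node (.leaf q480_85) (.leaf (.leaf 0))) (.node (.leaf q896_21) (.leaf (.leaf 0)))))) (.node (.node (.node (.node (.leaf q0_213) (.leaf (.leaf 0))) (.node (.leaf q704_21) (.leaf (.leaf 0)))) (.node (.leaf (.leaf 0)) (.node (.leaf q788_21) (.leaf (.leaf 0))))) (.node (.node (.node (.leaf q192_21) (.leaf (.leaf 0))) (.node (.leaf q768_85) (.leaf (.leaf 0)))) (.node (.node (.leaf q512_85) (.leaf (.leaf 0))) (.leaf (.leaf 0))))))) (.node (.node (.node (.node (.node (.node (.leaf q0_53) (.leaf q897_53)) (.node (.leaf q512_181) (.leaf (.leaf 0)))) (.node (.node (.leaf q192_117) (.leaf (.leaf 0))) (.node (.leaf q768_181) (.leaf (.leaf 0))))) (.node (.node (.node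 (.leaf q0_309) (.leaf (.leaf 0))) (.node (.leaf q704_117) (.leaf (.leaf 0)))) (.node (.node (.leaf q480_53) (.leaf (.leaf 0))) (.leaf (.leaf 0))))) (.node (.node (.node (.node (.leaf q0_181) (.leaf (.leaf 0))) (.leaf (.leaf 0))) (.node (.node (.leaf q220_53) (.leaf (.leaf 0))) (.node (.leaf q769_117) (.leaf (.leaf 0))))) (.node (.node (.leaf (.leaf 0)) (.node (.leaf q768_53) (.leaf (.leaf 0)))) (.node (.node (.leaf q512_53) (.leaf (.leaf 0))) (.node (.leaf q896_117) (.leaf (.leaf 0))))))) (.node (.node (.node (.node (.node (.leaf q0_117) (.leaf (.leaf 0))) (.node (.leaf q512_245) (.leaf (.leaf 0)))) (.node (.leaf (.leaf 0)) (.node (.leaf q769_53) (.leaf (.leaf 0))))) (.node (.node (.node (.leaf q0_373) (.leaf (.leaf 0))) (.leaf (.leaf 0))) (.node (.leaf (.leaf 0)) (.node (.leaf q896_53) (.leaf (.leaf 0)))))) (.node (.node (.node (.node (.leaf q0_245) (.leaf (.leaf 0))) (.node (.leaf q704_53) (.leaf (.leaf 0)))) (.node (.leaf (.leaf 0)) (.node (.leaf q788_53)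 (.leaf (.leaf 0))))) (.node (.node (.node (.leaf q192_53) (.leaf (.leaf 0))) (.node (.leaf q768_117) (.leaf (.leaf 0)))) (.node (.node (.leaf q512_117) (.leaf (.leaf 0))) (.leaf (.leaf 0))))))))) (.node (.node (.node (.node (.node (.node (.node (.node (.leaf q0_13) (.leaf q897_13)) (.node (.leaf q512_141) (.leaf (.leaf 0)))) (.node (.node (.leaf q192_77) (.leaf (.leaf 0))) (.node (.leaf q768_141) (.leaf (.leaf 0))))) (.node (.node (.node (.leaf q0_269) (.leaf (.leaf 0))) (.node (.leaf q704_77) (.leaf (.leaf 0)))) (.node (.node (.leaf q480_13) (.leaf (.leaf 0))) (.node (.leaf q788_77) (.leaf (.leaf 0)))))) (.node (.node (.node (.node (.leaf q0_141) (.leaf (.leaf 0))) (.leaf (.leaf 0))) (.node (.node (.leaf q220_13) (.leaf (.leaf 0))) (.node (.leaf q769_77) (.leaf (.leaf 0))))) (.node (.node (.leaf (.leaf 0)) (.node (.leaf q768_13) (.leaf (.leaf 0)))) (.node (.node (.leaf q512_13) (.leaf (.leaf 0))) (.node (.leaf q896_77) (.leaf (.leaf 0))))))) (.node (.node (.node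 (.node (.node (.leaf q0_77) (.leaf q897_77)) (.node (.leaf q512_205) (.leaf (.leaf 0)))) (.node (.node (.leaf q192_141) (.leaf (.leaf 0))) (.node (.leaf q769_13) (.leaf (.leaf 0))))) (.node (.node (.node (.leaf q0_333) (.leaf (.leaf 0))) (.leaf (.leaf 0))) (.node (.node (.leaf q480_77) (.leaf (.leaf 0))) (.node (.leaf q896_13) (.leaf (.leaf 0)))))) (.node (.node (.node (.node (.leaf q0_205) (.leaf (.leaf 0))) (.node (.leaf q704_13) (.leaf (.leaf 0)))) (.node (.leaf (.leaf 0)) (.node (.leaf q788_13) (.leaf (.leaf 0))))) (.node (.node (.node (.leaf q192_13) (.leaf (.leaf 0))) (.node (.leaf q768_77) (.leaf (.leaf 0)))) (.node (.node (.leaf q512_77) (.leaf (.leaf 0))) (.node (.leaf q896_141) (.leaf (.leaf 0)))))))) (.node (.node (.node (.node (.node (.node (.leaf q0_45) (.leaf q897_45)) (.node (.leaf q512_173) (.leaf (.leaf 0)))) (.node (.node (.leaf q192_109) (.leaf (.leaf 0))) (.node (.leaf q768_173) (.leaf (.leaf 0))))) (.node (.node (.node (.leaf q0_301) (.leaf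 (.leaf 0))) (.node (.leaf q704_109) (.leaf (.leaf 0)))) (.node (.node (.leaf q480_45) (.leaf (.leaf 0))) (.leaf (.leaf 0))))) (.node (.node (.node (.node (.leaf q0_173) (.leaf (.leaf 0))) (.leaf (.leaf 0))) (.node (.node (.leaf q220_45) (.leaf (.leaf 0))) (.node (.leaf q769_109) (.leaf (.leaf 0))))) (.node (.node (.leaf (.leaf 0)) (.node (.leaf q768_45) (.leaf (.leaf 0)))) (.node (.node (.leaf q512_45) (.leaf (.leaf 0))) (.node (.leaf q896_109) (.leaf (.leaf 0))))))) (.node (.node (.node (.node (.node (.leaf q0_109) (.leaf (.leaf 0))) (.node (.leaf q512_237) (.leaf (.leaf 0)))) (.node (.leaf (.leaf 0)) (.node (.leaf q769_45) (.leaf (.leaf 0))))) (.node (.node (.node (.leaf q0_365) (.leaf (.leaf 0))) (.leaf (.leaf 0))) (.node (.leaf (.leaf 0)) (.node (.leaf q896_45) (.leaf (.leaf 0)))))) (.node (.node (.node (.node (.leaf q0_237) (.leaf (.leaf 0))) (.node (.leaf q704_45) (.leaf (.leaf 0)))) (.node (.leaf (.leaf 0)) (.node (.leaf q788_45) (.leaf (.leaf 0)))))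 (.node (.node (.node (.leaf q192_45) (.leaf (.leaf 0))) (.node (.leaf q768_109) (.leaf (.leaf 0)))) (.node (.node (.leaf q512_109) (.leaf (.leaf 0))) (.leaf (.leaf 0)))))))) (.node (.node (.node (.node (.node (.node (.node (.leaf q0_29) (.leaf q897_29)) (.node (.leaf q512_157) (.leaf (.leaf 0)))) (.node (.node (.leaf q192_93) (.leaf (.leaf 0))) (.node (.leaf q768_157) (.leaf (.leaf 0))))) (.node (.node (.node (.leaf q0_285) (.leaf (.leaf 0))) (.node (.leaf q704_93) (.leaf (.leaf 0)))) (.node (.node (.leaf q480_29) (.leaf (.leaf 0))) (.node (.leaf q788_93) (.leaf (.leaf 0)))))) (.node (.node (.node (.node (.leaf q0_157) (.leaf (.leaf 0))) (.leaf (.leaf 0))) (.node (.node (.leaf q220_29) (.leaf (.leaf 0))) (.node (.leaf q769_93) (.leaf (.leaf 0))))) (.node (.node (.leaf (.leaf 0)) (.node (.leaf q768_29) (.leaf (.leaf 0)))) (.node (.node (.leaf q512_29) (.leaf (.leaf 0))) (.node (.leaf q896_93) (.leaf (.leaf 0))))))) (.node (.node (.node (.node (.node (.leaf q0_93)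 (.leaf q897_93)) (.node (.leaf q512_221) (.leaf (.leaf 0)))) (.node (.node (.leaf q192_157) (.leaf (.leaf 0))) (.node (.leaf q769_29) (.leaf (.leaf 0))))) (.node (.node (.node (.leaf q0_349) (.leaf (.leaf 0))) (.leaf (.leaf 0))) (.node (.node (.leaf q480_93) (.leaf (.leaf 0))) (.node (.leaf q896_29) (.leaf (.leaf 0)))))) (.node (.node (.node (.node (.leaf q0_221) (.leaf (.leaf 0))) (.node (.leaf q704_29) (.leaf (.leaf 0)))) (.node (.leaf (.leaf 0)) (.node (.leaf q788_29) (.leaf (.leaf 0))))) (.node (.node (.node (.leaf q192_29) (.leaf (.leaf 0))) (.node (.leaf q768_93) (.leaf (.leaf 0)))) (.node (.node (.leaf q512_93) (.leaf (.leaf 0))) (.leaf (.leaf 0))))))) (.node (.node (.node (.node (.node (.node (.leaf q0_61) (.leaf q897_61)) (.node (.leaf q512_189) (.leaf (.leaf 0)))) (.node (.node (.leaf q192_125) (.leaf (.leaf 0))) (.node (.leaf q768_189) (.leaf (.leaf 0))))) (.node (.node (.node (.leaf q0_317) (.leaf (.leaf 0))) (.node (.leaf q704_125) (.leaf (.leaf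 0)))) (.node (.node (.leaf q480_61) (.leaf (.leaf 0))) (.leaf (.leaf 0))))) (.node (.node (.node (.node (.leaf q0_189) (.leaf (.leaf 0))) (.leaf (.leaf 0))) (.node (.node (.leaf q220_61) (.leaf (.leaf 0))) (.leaf (.leaf 0)))) (.node (.node (.leaf (.leaf 0)) (.node (.leaf q768_61) (.leaf (.leaf 0)))) (.node (.node (.leaf q512_61) (.leaf (.leaf 0))) (.node (.leaf q896_125) (.leaf (.leaf 0))))))) (.node (.node (.node (.node (.node (.leaf q0_125) (.leaf (.leaf 0))) (.node (.leaf q512_253) (.leaf (.leaf 0)))) (.node (.leaf (.leaf 0)) (.node (.leaf q769_61) (.leaf (.leaf 0))))) (.node (.node (.node (.leaf q0_381) (.leaf (.leaf 0))) (.leaf (.leaf 0))) (.node (.leaf (.leaf 0)) (.node (.leaf q896_61) (.leaf (.leaf 0)))))) (.node (.node (.node (.node (.leaf q0_253) (.leaf (.leaf 0))) (.node (.leaf q704_61) (.leaf (.leaf 0)))) (.node (.leaf (.leaf 0)) (.node (.leaf q788_61) (.leaf (.leaf 0))))) (.node (.node (.node (.leaf q192_61) (.leaf (.leaf 0))) (.node (.leaf q768_125)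 (.leaf (.leaf 0)))) (.node (.node (.leaf q512_125) (.leaf (.leaf 0))) (.leaf (.leaf 0))))))))))) (.node (.node (.node (.node (.node (.node (.node (.node (.node (.node (.leaf q0_3) (.leaf q897_3)) (.node (.leaf q512_131) (.leaf (.leaf 0)))) (.node (.node (.leaf q192_67) (.leaf (.leaf 0))) (.node (.leaf q768_131) (.leaf (.leaf 0))))) (.node (.node (.node (.leaf q0_259) (.leaf (.leaf 0))) (.node (.leaf q704_67) (.leaf (.leaf 0)))) (.node (.node (.leaf q480_3) (.leaf (.leaf 0))) (.node (.leaf q788_67) (.leaf (.leaf 0)))))) (.node (.node (.node (.node (.leaf q0_131) (.leaf (.leaf 0))) (.node (.leaf q512_259) (.leaf (.leaf 0)))) (.node (.node (.leaf q220_3) (.leaf (.leaf 0))) (.node (.leaf q769_67) (.leaf (.leaf 0))))) (.node (.node (.node (.leaf q0_387) (.leaf (.leaf 0))) (.node (.leaf q768_3) (.leaf (.leaf 0)))) (.node (.node (.leaf q512_3) (.leaf (.leaf 0))) (.node (.leaf q896_67) (.leaf (.leaf 0))))))) (.node (.node (.node (.node (.node (.leaf q0_67) (.leaf q897_67))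 (.node (.leaf q512_195) (.leaf (.leaf 0)))) (.node (.node (.leaf q192_131) (.leaf (.leaf 0))) (.node (.leaf q769_3) (.leaf (.leaf 0))))) (.node (.node (.node (.leaf q0_323) (.leaf (.leaf 0))) (.node (.leaf q704_131) (.leaf (.leaf 0)))) (.node (.node (.leaf q480_67) (.leaf (.leaf 0))) (.node (.leaf q896_3) (.leaf (.leaf 0)))))) (.node (.node (.node (.node (.leaf q0_195) (.leaf (.leaf 0))) (.node (.leaf q704_3) (.leaf (.leaf 0)))) (.node (.node (.leaf q220_67) (.leaf (.leaf 0))) (.node (.leaf q788_3) (.leaf (.leaf 0))))) (.node (.node (.node (.leaf q192_3) (.leaf (.leaf 0))) (.node (.leaf q768_67) (.leaf (.leaf 0)))) (.node (.node (.leaf q512_67) (.leaf (.leaf 0))) (.node (.leaf q896_131) (.leaf (.leaf 0)))))))) (.node (.node (.node (.node (.node (.node (.leaf q0_35) (.leaf q897_35)) (.node (.leaf q512_163) (.leaf (.leaf 0)))) (.node (.node (.leaf q192_99) (.leaf (.leaf 0))) (.node (.leaf q768_163) (.leaf (.leaf 0))))) (.node (.node (.node (.leaf q0_291) (.leaf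 (.leaf 0))) (.node (.leaf q704_99) (.leaf (.leaf 0)))) (.node (.node (.leaf q480_35) (.leaf (.leaf 0))) (.leaf (.leaf 0))))) (.node (.node (.node (.node (.leaf q0_163) (.leaf (.leaf 0))) (.leaf (.leaf 0))) (.node (.node (.leaf q220_35) (.leaf (.leaf 0))) (.node (.leaf q769_99) (.leaf (.leaf 0))))) (.node (.node (.leaf (.leaf 0)) (.node (.leaf q768_35) (.leaf (.leaf 0)))) (.node (.node (.leaf q512_35) (.leaf (.leaf 0))) (.node (.leaf q896_99) (.leaf (.leaf 0))))))) (.node (.node (.node (.node (.node (.leaf q0_99) (.leaf (.leaf 0))) (.node (.leaf q512_227) (.leaf (.leaf 0)))) (.node (.node (.leaf q192_163) (.leaf (.leaf 0))) (.node (.leaf q769_35) (.leaf (.leaf 0))))) (.node (.node (.node (.leaf q0_355) (.leaf (.leaf 0))) (.leaf (.leaf 0))) (.node (.node (.leaf q480_99) (.leaf (.leaf 0))) (.node (.leaf q896_35) (.leaf (.leaf 0)))))) (.node (.node (.node (.node (.leaf q0_227) (.leaf (.leaf 0))) (.node (.leaf q704_35) (.leaf (.leaf 0)))) (.node (.leaf (.leaf 0))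 (.node (.leaf q788_35) (.leaf (.leaf 0))))) (.node (.node (.node (.leaf q192_35) (.leaf (.leaf 0))) (.node (.leaf q768_99) (.leaf (.leaf 0)))) (.node (.node (.leaf q512_99) (.leaf (.leaf 0))) (.leaf (.leaf 0)))))))) (.node (.node (.node (.node (.node (.node (.node (.leaf q0_19) (.leaf q897_19)) (.node (.leaf q512_147) (.leaf (.leaf 0)))) (.node (.node (.leaf q192_83) (.leaf (.leaf 0))) (.node (.leaf q768_147) (.leaf (.leaf 0))))) (.node (.node (.node (.leaf q0_275) (.leaf (.leaf 0))) (.node (.leaf q704_83) (.leaf (.leaf 0)))) (.node (.node (.leaf q480_19) (.leaf (.leaf 0))) (.node (.leaf q788_83) (.leaf (.leaf 0)))))) (.node (.node (.node (.node (.leaf q0_147) (.leaf (.leaf 0))) (.leaf (.leaf 0))) (.node (.node (.leaf q220_19) (.leaf (.leaf 0))) (.node (.leaf q769_83) (.leaf (.leaf 0))))) (.node (.node (.leaf (.leaf 0)) (.node (.leaf q768_19) (.leaf (.leaf 0)))) (.node (.node (.leaf q512_19) (.leaf (.leaf 0))) (.node (.leaf q896_83) (.leaf (.leaf 0))))))) (.node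 (.node (.node (.node (.node (.leaf q0_83) (.leaf q897_83)) (.node (.leaf q512_211) (.leaf (.leaf 0)))) (.node (.node (.leaf q192_147) (.leaf (.leaf 0))) (.node (.leaf q769_19) (.leaf (.leaf 0))))) (.node (.node (.node (.leaf q0_339) (.leaf (.leaf 0))) (.leaf (.leaf 0))) (.node (.node (.leaf q480_83) (.leaf (.leaf 0))) (.node (.leaf q896_19) (.leaf (.leaf 0)))))) (.node (.node (.node (.node (.leaf q0_211) (.leaf (.leaf 0))) (.node (.leaf q704_19) (.leaf (.leaf 0)))) (.node (.leaf (.leaf 0)) (.node (.leaf q788_19) (.leaf (.leaf 0))))) (.node (.node (.node (.leaf q192_19) (.leaf (.leaf 0))) (.node (.leaf q768_83) (.leaf (.leaf 0)))) (.node (.node (.leaf q512_83) (.leaf (.leaf 0))) (.node (.leaf q896_147) (.leaf (.leaf 0)))))))) (.node (.node (.node (.node (.node (.node (.leaf q0_51) (.leaf q897_51)) (.node (.leaf q512_179) (.leaf (.leaf 0)))) (.node (.node (.leaf q192_115) (.leaf (.leaf 0))) (.node (.leaf q768_179) (.leaf (.leaf 0))))) (.node (.node (.node (.leaf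 q0_307) (.leaf (.leaf 0))) (.node (.leaf q704_115) (.leaf (.leaf 0)))) (.node (.node (.leaf q480_51) (.leaf (.leaf 0))) (.leaf (.leaf 0))))) (.node (.node (.node (.node (.leaf q0_179) (.leaf (.leaf 0))) (.leaf (.leaf 0))) (.node (.node (.leaf q220_51) (.leaf (.leaf 0))) (.node (.leaf q769_115) (.leaf (.leaf 0))))) (.node (.node (.leaf (.leaf 0)) (.node (.leaf q768_51) (.leaf (.leaf 0)))) (.node (.node (.leaf q512_51) (.leaf (.leaf 0))) (.node (.leaf q896_115) (.leaf (.leaf 0))))))) (.node (.node (.node (.node (.node (.leaf q0_115) (.leaf (.leaf 0))) (.node (.leaf q512_243) (.leaf (.leaf 0)))) (.node (.leaf (.leaf 0)) (.node (.leaf q769_51) (.leaf (.leaf 0))))) (.node (.node (.node (.leaf q0_371) (.leaf (.leaf 0))) (.leaf (.leaf 0))) (.node (.leaf (.leaf 0)) (.node (.leaf q896_51) (.leaf (.leaf 0)))))) (.node (.node (.node (.node (.leaf q0_243) (.leaf (.leaf 0))) (.node (.leaf q704_51) (.leaf (.leaf 0)))) (.node (.leaf (.leaf 0)) (.node (.leaf q788_51) (.leaf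 (.leaf 0))))) (.node (.node (.node (.leaf q192_51) (.leaf (.leaf 0))) (.node (.leaf q768_115) (.leaf (.leaf 0)))) (.node (.node (.leaf q512_115) (.leaf (.leaf 0))) (.leaf (.leaf 0))))))))) (.node (.node (.node (.node (.node (.node (.node (.node (.leaf q0_11) (.leaf q897_11)) (.node (.leaf q512_139) (.leaf (.leaf 0)))) (.node (.node (.leaf q192_75) (.leaf (.leaf 0))) (.node (.leaf q768_139) (.leaf (.leaf 0))))) (.node (.node (.node (.leaf q0_267) (.leaf (.leaf 0))) (.node (.leaf q704_75) (.leaf (.leaf 0)))) (.node (.node (.leaf q480_11) (.leaf (.leaf 0))) (.node (.leaf q788_75) (.leaf (.leaf 0)))))) (.node (.node (.node (.node (.leaf q0_139) (.leaf (.leaf 0))) (.leaf (.leaf 0))) (.node (.node (.leaf q220_11) (.leaf (.leaf 0))) (.node (.leaf q769_75) (.leaf (.leaf 0))))) (.node (.node (.leaf (.leaf 0)) (.node (.leaf q768_11) (.leaf (.leaf 0)))) (.node (.node (.leaf q512_11) (.leaf (.leaf 0))) (.node (.leaf q896_75) (.leaf (.leaf 0))))))) (.node (.node (.node (.node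 (.node (.leaf q0_75) (.leaf q897_75)) (.node (.leaf q512_203) (.leaf (.leaf 0)))) (.node (.node (.leaf q192_139) (.leaf (.leaf 0))) (.node (.leaf q769_11) (.leaf (.leaf 0))))) (.node (.node (.node (.leaf q0_331) (.leaf (.leaf 0))) (.leaf (.leaf 0))) (.node (.node (.leaf q480_75) (.leaf (.leaf 0))) (.node (.leaf q896_11) (.leaf (.leaf 0)))))) (.node (.node (.node (.node (.leaf q0_203) (.leaf (.leaf 0))) (.node (.leaf q704_11) (.leaf (.leaf 0)))) (.node (.leaf (.leaf 0)) (.node (.leaf q788_11) (.leaf (.leaf 0))))) (.node (.node (.node (.leaf q192_11) (.leaf (.leaf 0))) (.node (.leaf q768_75) (.leaf (.leaf 0)))) (.node (.node (.leaf q512_75) (.leaf (.leaf 0))) (.node (.leaf q896_139) (.leaf (.leaf 0)))))))) (.node (.node (.node (.node (.node (.node (.leaf q0_43) (.leaf q897_43)) (.node (.leaf q512_171) (.leaf (.leaf 0)))) (.node (.node (.leaf q192_107) (.leaf (.leaf 0))) (.node (.leaf q768_171) (.leaf (.leaf 0))))) (.node (.node (.node (.leaf q0_299) (.leaf (.leaf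 0))) (.node (.leaf q704_107) (.leaf (.leaf 0)))) (.node (.node (.leaf q480_43) (.leaf (.leaf 0))) (.leaf (.leaf 0))))) (.node (.node (.node (.node (.leaf q0_171) (.leaf (.leaf 0))) (.leaf (.leaf 0))) (.node (.node (.leaf q220_43) (.leaf (.leaf 0))) (.node (.leaf q769_107) (.leaf (.leaf 0))))) (.node (.node (.leaf (.leaf 0)) (.node (.leaf q768_43) (.leaf (.leaf 0)))) (.node (.node (.leaf q512_43) (.leaf (.leaf 0))) (.node (.leaf q896_107) (.leaf (.leaf 0))))))) (.node (.node (.node (.node (.node (.leaf q0_107) (.leaf (.leaf 0))) (.node (.leaf q512_235) (.leaf (.leaf 0)))) (.node (.node (.leaf q192_171) (.leaf (.leaf 0))) (.node (.leaf q769_43) (.leaf (.leaf 0))))) (.node (.node (.node (.leaf q0_363) (.leaf (.leaf 0))) (.leaf (.leaf 0))) (.node (.leaf (.leaf 0)) (.node (.leaf q896_43) (.leaf (.leaf 0)))))) (.node (.node (.node (.node (.leaf q0_235) (.leaf (.leaf 0))) (.node (.leaf q704_43) (.leaf (.leaf 0)))) (.node (.leaf (.leaf 0)) (.node (.leaf q788_43) (.leaf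 (.leaf 0))))) (.node (.node (.node (.leaf q192_43) (.leaf (.leaf 0))) (.node (.leaf q768_107) (.leaf (.leaf 0)))) (.node (.node (.leaf q512_107) (.leaf (.leaf 0))) (.leaf (.leaf 0)))))))) (.node (.node (.node (.node (.node (.node (.node (.leaf q0_27) (.leaf q897_27)) (.node (.leaf q512_155) (.leaf (.leaf 0)))) (.node (.node (.leaf q192_91) (.leaf (.leaf 0))) (.node (.leaf q768_155) (.leaf (.leaf 0))))) (.node (.node (.node (.leaf q0_283) (.leaf (.leaf 0))) (.node (.leaf q704_91) (.leaf (.leaf 0)))) (.node (.node (.leaf q480_27) (.leaf (.leaf 0))) (.node (.leaf q788_91) (.leaf (.leaf 0)))))) (.node (.node (.node (.node (.leaf q0_155) (.leaf (.leaf 0))) (.leaf (.leaf 0))) (.node (.node (.leaf q220_27) (.leaf (.leaf 0))) (.node (.leaf q769_91) (.leaf (.leaf 0))))) (.node (.node (.leaf (.leaf 0)) (.node (.leaf q768_27) (.leaf (.leaf 0)))) (.node (.node (.leaf q512_27) (.leaf (.leaf 0))) (.node (.leaf q896_91) (.leaf (.leaf 0))))))) (.node (.node (.node (.node (.node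 (.leaf q0_91) (.leaf q897_91)) (.node (.leaf q512_219) (.leaf (.leaf 0)))) (.node (.node (.leaf q192_155) (.leaf (.leaf 0))) (.node (.leaf q769_27) (.leaf (.leaf 0))))) (.node (.node (.node (.leaf q0_347) (.leaf (.leaf 0))) (.leaf (.leaf 0))) (.node (.node (.leaf q480_91) (.leaf (.leaf 0))) (.node (.leaf q896_27) (.leaf (.leaf 0)))))) (.node (.node (.node (.node (.leaf q0_219) (.leaf (.leaf 0))) (.node (.leaf q704_27) (.leaf (.leaf 0)))) (.node (.leaf (.leaf 0)) (.node (.leaf q788_27) (.leaf (.leaf 0))))) (.node (.node (.node (.leaf q192_27) (.leaf (.leaf 0))) (.node (.leaf q768_91) (.leaf (.leaf 0)))) (.node (.node (.leaf q512_91) (.leaf (.leaf 0))) (.leaf (.leaf 0))))))) (.node (.node (.node (.node (.node (.node (.leaf q0_59) (.leaf q897_59)) (.node (.leaf q512_187) (.leaf (.leaf 0)))) (.node (.node (.leaf q192_123) (.leaf (.leaf 0))) (.node (.leaf q768_187) (.leaf (.leaf 0))))) (.node (.node (.node (.leaf q0_315) (.leaf (.leaf 0))) (.node (.leaf q704_123)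 (.leaf (.leaf 0)))) (.node (.node (.leaf q480_59) (.leaf (.leaf 0))) (.leaf (.leaf 0))))) (.node (.node (.node (.node (.leaf q0_187) (.leaf (.leaf 0))) (.leaf (.leaf 0))) (.node (.node (.leaf q220_59) (.leaf (.leaf 0))) (.node (.leaf q769_123) (.leaf (.leaf 0))))) (.node (.node (.leaf (.leaf 0)) (.node (.leaf q768_59) (.leaf (.leaf 0)))) (.node (.node (.leaf q512_59) (.leaf (.leaf 0))) (.node (.leaf q896_123) (.leaf (.leaf 0))))))) (.node (.node (.node (.node (.node (.leaf q0_123) (.leaf (.leaf 0))) (.node (.leaf q512_251) (.leaf (.leaf 0)))) (.node (.leaf (.leaf 0)) (.node (.leaf q769_59) (.leaf (.leaf 0))))) (.node (.node (.node (.leaf q0_379) (.leaf (.leaf 0))) (.leaf (.leaf 0))) (.node (.leaf (.leaf 0)) (.node (.leaf q896_59) (.leaf (.leaf 0)))))) (.node (.node (.node (.node (.leaf q0_251) (.leaf (.leaf 0))) (.node (.leaf q704_59) (.leaf (.leaf 0)))) (.node (.leaf (.leaf 0)) (.node (.leaf q788_59) (.leaf (.leaf 0))))) (.node (.node (.node (.leaf q192_59)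 (.leaf (.leaf 0))) (.node (.leaf q768_123) (.leaf (.leaf 0)))) (.node (.node (.leaf q512_123) (.leaf (.leaf 0))) (.leaf (.leaf 0)))))))))) (.node (.node (.node (.node (.node (.node (.node (.node (.node (.leaf q0_7) (.leaf q897_7)) (.node (.leaf q512_135) (.leaf (.leaf 0)))) (.node (.node (.leaf q192_71) (.leaf (.leaf 0))) (.node (.leaf q768_135) (.leaf (.leaf 0))))) (.node (.node (.node (.leaf q0_263) (.leaf (.leaf 0))) (.node (.leaf q704_71) (.leaf (.leaf 0)))) (.node (.node (.leaf q480_7) (.leaf (.leaf 0))) (.node (.leaf q788_71) (.leaf (.leaf 0)))))) (.node (.node (.node (.node (.leaf q0_135) (.leaf (.leaf 0))) (.leaf (.leaf 0))) (.node (.node (.leaf q220_7) (.leaf (.leaf 0))) (.node (.leaf q769_71) (.leaf (.leaf 0))))) (.node (.node (.leaf (.leaf 0)) (.node (.leaf q768_7) (.leaf (.leaf 0)))) (.node (.node (.leaf q512_7) (.leaf (.leaf 0))) (.node (.leaf q896_71) (.leaf (.leaf 0))))))) (.node (.node (.node (.node (.node (.leaf q0_71) (.leaf q897_71)) (.node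 (.leaf q512_199) (.leaf (.leaf 0)))) (.node (.node (.leaf q192_135) (.leaf (.leaf 0))) (.node (.leaf q769_7) (.leaf (.leaf 0))))) (.node (.node (.node (.leaf q0_327) (.leaf (.leaf 0))) (.leaf (.leaf 0))) (.node (.node (.leaf q480_71) (.leaf (.leaf 0))) (.node (.leaf q896_7) (.leaf (.leaf 0)))))) (.node (.node (.node (.node (.leaf q0_199) (.leaf (.leaf 0))) (.node (.leaf q704_7) (.leaf (.leaf 0)))) (.node (.node (.leaf q220_71) (.leaf (.leaf 0))) (.node (.leaf q788_7) (.leaf (.leaf 0))))) (.node (.node (.node (.leaf q192_7) (.leaf (.leaf 0))) (.node (.leaf q768_71) (.leaf (.leaf 0)))) (.node (.node (.leaf q512_71) (.leaf (.leaf 0))) (.node (.leaf q896_135) (.leaf (.leaf 0)))))))) (.node (.node (.node (.node (.node (.node (.leaf q0_39) (.leaf q897_39)) (.node (.leaf q512_167) (.leaf (.leaf 0)))) (.node (.node (.leaf q192_103) (.leaf (.leaf 0))) (.node (.leaf q768_167) (.leaf (.leaf 0))))) (.node (.node (.node (.leaf q0_295) (.leaf (.leaf 0))) (.node (.leaf q704_103)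 (.leaf (.leaf 0)))) (.node (.node (.leaf q480_39) (.leaf (.leaf 0))) (.leaf (.leaf 0))))) (.node (.node (.node (.node (.leaf q0_167) (.leaf (.leaf 0))) (.leaf (.leaf 0))) (.node (.node (.leaf q220_39) (.leaf (.leaf 0))) (.node (.leaf q769_103) (.leaf (.leaf 0))))) (.node (.node (.leaf (.leaf 0)) (.node (.leaf q768_39) (.leaf (.leaf 0)))) (.node (.node (.leaf q512_39) (.leaf (.leaf 0))) (.node (.leaf q896_103) (.leaf (.leaf 0))))))) (.node (.node (.node (.node (.node (.leaf q0_103) (.leaf (.leaf 0))) (.node (.leaf q512_231) (.leaf (.leaf 0)))) (.node (.node (.leaf q192_167) (.leaf (.leaf 0))) (.node (.leaf q769_39) (.leaf (.leaf 0))))) (.node (.node (.node (.leaf q0_359) (.leaf (.leaf 0))) (.leaf (.leaf 0))) (.node (.leaf (.leaf 0)) (.node (.leaf q896_39) (.leaf (.leaf 0)))))) (.node (.node (.node (.node (.leaf q0_231) (.leaf (.leaf 0))) (.node (.leaf q704_39) (.leaf (.leaf 0)))) (.node (.leaf (.leaf 0)) (.node (.leaf q788_39) (.leaf (.leaf 0))))) (.node (.node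 (.node (.leaf q192_39) (.leaf (.leaf 0))) (.node (.leaf q768_103) (.leaf (.leaf 0)))) (.node (.node (.leaf q512_103) (.leaf (.leaf 0))) (.leaf (.leaf 0)))))))) (.node (.node (.node (.node (.node (.node (.node (.leaf q0_23) (.leaf q897_23)) (.node (.leaf q512_151) (.leaf (.leaf 0)))) (.node (.node (.leaf q192_87) (.leaf (.leaf 0))) (.node (.leaf q768_151) (.leaf (.leaf 0))))) (.node (.node (.node (.leaf q0_279) (.leaf (.leaf 0))) (.node (.leaf q704_87) (.leaf (.leaf 0)))) (.node (.node (.leaf q480_23) (.leaf (.leaf 0))) (.node (.leaf q788_87) (.leaf (.leaf 0)))))) (.node (.node (.node (.node (.leaf q0_151) (.leaf (.leaf 0))) (.leaf (.leaf 0))) (.node (.node (.leaf q220_23) (.leaf (.leaf 0))) (.node (.leaf q769_87) (.leaf (.leaf 0))))) (.node (.node (.leaf (.leaf 0)) (.node (.leaf q768_23) (.leaf (.leaf 0)))) (.node (.node (.leaf q512_23) (.leaf (.leaf 0))) (.node (.leaf q896_87) (.leaf (.leaf 0))))))) (.node (.node (.node (.node (.node (.leaf q0_87) (.leaf q897_87))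 (.node (.leaf q512_215) (.leaf (.leaf 0)))) (.node (.node (.leaf q192_151) (.leaf (.leaf 0))) (.node (.leaf q769_23) (.leaf (.leaf 0))))) (.node (.node (.node (.leaf q0_343) (.leaf (.leaf 0))) (.leaf (.leaf 0))) (.node (.node (.leaf q480_87) (.leaf (.leaf 0))) (.node (.leaf q896_23) (.leaf (.leaf 0)))))) (.node (.node (.node (.node (.leaf q0_215) (.leaf (.leaf 0))) (.node (.leaf q704_23) (.leaf (.leaf 0)))) (.node (.leaf (.leaf 0)) (.node (.leaf q788_23) (.leaf (.leaf 0))))) (.node (.node (.node (.leaf q192_23) (.leaf (.leaf 0))) (.node (.leaf q768_87) (.leaf (.leaf 0)))) (.node (.node (.leaf q512_87) (.leaf (.leaf 0))) (.leaf (.leaf 0))))))) (.node (.node (.node (.node (.node (.node (.leaf q0_55) (.leaf q897_55)) (.node (.leaf q512_183) (.leaf (.leaf 0)))) (.node (.node (.leaf q192_119) (.leaf (.leaf 0))) (.node (.leaf q768_183) (.leaf (.leaf 0))))) (.node (.node (.node (.leaf q0_311) (.leaf (.leaf 0))) (.node (.leaf q704_119) (.leaf (.leaf 0)))) (.node (.node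 (.leaf q480_55) (.leaf (.leaf 0))) (.leaf (.leaf 0))))) (.node (.node (.node (.node (.leaf q0_183) (.leaf (.leaf 0))) (.leaf (.leaf 0))) (.node (.node (.leaf q220_55) (.leaf (.leaf 0))) (.node (.leaf q769_119) (.leaf (.leaf 0))))) (.node (.node (.leaf (.leaf 0)) (.node (.leaf q768_55) (.leaf (.leaf 0)))) (.node (.node (.leaf q512_55) (.leaf (.leaf 0))) (.node (.leaf q896_119) (.leaf (.leaf 0))))))) (.node (.node (.node (.node (.node (.leaf q0_119) (.leaf (.leaf 0))) (.node (.leaf q512_247) (.leaf (.leaf 0)))) (.node (.leaf (.leaf 0)) (.node (.leaf q769_55) (.leaf (.leaf 0))))) (.node (.node (.node (.leaf q0_375) (.leaf (.leaf 0))) (.leaf (.leaf 0))) (.node (.leaf (.leaf 0)) (.node (.leaf q896_55) (.leaf (.leaf 0)))))) (.node (.node (.node (.node (.leaf q0_247) (.leaf (.leaf 0))) (.node (.leaf q704_55) (.leaf (.leaf 0)))) (.node (.leaf (.leaf 0)) (.node (.leaf q788_55) (.leaf (.leaf 0))))) (.node (.node (.node (.leaf q192_55) (.leaf (.leaf 0))) (.node (.leaf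 q768_119) (.leaf (.leaf 0)))) (.node (.node (.leaf q512_119) (.leaf (.leaf 0))) (.leaf (.leaf 0))))))))) (.node (.node (.node (.node (.node (.node (.node (.node (.leaf q0_15) (.leaf q897_15)) (.node (.leaf q512_143) (.leaf (.leaf 0)))) (.node (.node (.leaf q192_79) (.leaf (.leaf 0))) (.node (.leaf q768_143) (.leaf (.leaf 0))))) (.node (.node (.node (.leaf q0_271) (.leaf (.leaf 0))) (.node (.leaf q704_79) (.leaf (.leaf 0)))) (.node (.node (.leaf q480_15) (.leaf (.leaf 0))) (.node (.leaf q788_79) (.leaf (.leaf 0)))))) (.node (.node (.node (.node (.leaf q0_143) (.leaf (.leaf 0))) (.leaf (.leaf 0))) (.node (.node (.leaf q220_15) (.leaf (.leaf 0))) (.node (.leaf q769_79) (.leaf (.leaf 0))))) (.node (.node (.leaf (.leaf 0)) (.node (.leaf q768_15) (.leaf (.leaf 0)))) (.node (.node (.leaf q512_15) (.leaf (.leaf 0))) (.node (.leaf q896_79) (.leaf (.leaf 0))))))) (.node (.node (.node (.node (.node (.leaf q0_79) (.leaf q897_79)) (.node (.leaf q512_207) (.leaf (.leaf 0))))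 (.node (.node (.leaf q192_143) (.leaf (.leaf 0))) (.node (.leaf q769_15) (.leaf (.leaf 0))))) (.node (.node (.node (.leaf q0_335) (.leaf (.leaf 0))) (.leaf (.leaf 0))) (.node (.node (.leaf q480_79) (.leaf (.leaf 0))) (.node (.leaf q896_15) (.leaf (.leaf 0)))))) (.node (.node (.node (.node (.leaf q0_207) (.leaf (.leaf 0))) (.node (.leaf q704_15) (.leaf (.leaf 0)))) (.node (.leaf (.leaf 0)) (.node (.leaf q788_15) (.leaf (.leaf 0))))) (.node (.node (.node (.leaf q192_15) (.leaf (.leaf 0))) (.node (.leaf q768_79) (.leaf (.leaf 0)))) (.node (.node (.leaf q512_79) (.leaf (.leaf 0))) (.node (.leaf q896_143) (.leaf (.leaf 0)))))))) (.node (.node (.node (.node (.node (.node (.leaf q0_47) (.leaf q897_47)) (.node (.leaf q512_175) (.leaf (.leaf 0)))) (.node (.node (.leaf q192_111) (.leaf (.leaf 0))) (.node (.leaf q768_175) (.leaf (.leaf 0))))) (.node (.node (.node (.leaf q0_303) (.leaf (.leaf 0))) (.node (.leaf q704_111) (.leaf (.leaf 0)))) (.node (.node (.leaf q480_47)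 (.leaf (.leaf 0))) (.leaf (.leaf 0))))) (.node (.node (.node (.node (.leaf q0_175) (.leaf (.leaf 0))) (.leaf (.leaf 0))) (.node (.node (.leaf q220_47) (.leaf (.leaf 0))) (.node (.leaf q769_111) (.leaf (.leaf 0))))) (.node (.node (.leaf (.leaf 0)) (.node (.leaf q768_47) (.leaf (.leaf 0)))) (.node (.node (.leaf q512_47) (.leaf (.leaf 0))) (.node (.leaf q896_111) (.leaf (.leaf 0))))))) (.node (.node (.node (.node (.node (.leaf q0_111) (.leaf (.leaf 0))) (.node (.leaf q512_239) (.leaf (.leaf 0)))) (.node (.leaf (.leaf 0)) (.node (.leaf q769_47) (.leaf (.leaf 0))))) (.node (.node (.node (.leaf q0_367) (.leaf (.leaf 0))) (.leaf (.leaf 0))) (.node (.leaf (.leaf 0)) (.node (.leaf q896_47) (.leaf (.leaf 0)))))) (.node (.node (.node (.node (.leaf q0_239) (.leaf (.leaf 0))) (.node (.leaf q704_47) (.leaf (.leaf 0)))) (.node (.leaf (.leaf 0)) (.node (.leaf q788_47) (.leaf (.leaf 0))))) (.node (.node (.node (.leaf q192_47) (.leaf (.leaf 0))) (.node (.leaf q768_111) (.leaf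 (.leaf 0)))) (.node (.node (.leaf q512_111) (.leaf (.leaf 0))) (.leaf (.leaf 0)))))))) (.node (.node (.node (.node (.node (.node (.node (.leaf q0_31) (.leaf q897_31)) (.node (.leaf q512_159) (.leaf (.leaf 0)))) (.node (.node (.leaf q192_95) (.leaf (.leaf 0))) (.node (.leaf q768_159) (.leaf (.leaf 0))))) (.node (.node (.node (.leaf q0_287) (.leaf (.leaf 0))) (.node (.leaf q704_95) (.leaf (.leaf 0)))) (.node (.node (.leaf q480_31) (.leaf (.leaf 0))) (.leaf (.leaf 0))))) (.node (.node (.node (.node (.leaf q0_159) (.leaf (.leaf 0))) (.leaf (.leaf 0))) (.node (.node (.leaf q220_31) (.leaf (.leaf 0))) (.node (.leaf q769_95) (.leaf (.leaf 0))))) (.node (.node (.leaf (.leaf 0)) (.node (.leaf q768_31) (.leaf (.leaf 0)))) (.node (.node (.leaf q512_31) (.leaf (.leaf 0))) (.node (.leaf q896_95) (.leaf (.leaf 0))))))) (.node (.node (.node (.node (.node (.leaf q0_95) (.leaf (.leaf 0))) (.node (.leaf q512_223) (.leaf (.leaf 0)))) (.node (.node (.leaf q192_159) (.leaf (.leaf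 0))) (.node (.leaf q769_31) (.leaf (.leaf 0))))) (.node (.node (.node (.leaf q0_351) (.leaf (.leaf 0))) (.leaf (.leaf 0))) (.node (.node (.leaf q480_95) (.leaf (.leaf 0))) (.node (.leaf q896_31) (.leaf (.leaf 0)))))) (.node (.node (.node (.node (.leaf q0_223) (.leaf (.leaf 0))) (.node (.leaf q704_31) (.leaf (.leaf 0)))) (.node (.leaf (.leaf 0)) (.node (.leaf q788_31) (.leaf (.leaf 0))))) (.node (.node (.node (.leaf q192_31) (.leaf (.leaf 0))) (.node (.leaf q768_95) (.leaf (.leaf 0)))) (.node (.node (.leaf q512_95) (.leaf (.leaf 0))) (.leaf (.leaf 0))))))) (.node (.node (.node (.node (.node (.node (.leaf q0_63) (.leaf q897_63)) (.node (.leaf q512_191) (.leaf (.leaf 0)))) (.node (.node (.leaf q192_127) (.leaf (.leaf 0))) (.leaf (.leaf 0)))) (.node (.node (.node (.leaf q0_319) (.leaf (.leaf 0))) (.node (.leaf q704_127) (.leaf (.leaf 0)))) (.node (.node (.leaf q480_63) (.leaf (.leaf 0))) (.leaf (.leaf 0))))) (.node (.node (.node (.node (.leaf q0_191) (.leaf (.leaf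 0))) (.leaf (.leaf 0))) (.node (.node (.leaf q220_63) (.leaf (.leaf 0))) (.leaf (.leaf 0)))) (.node (.node (.leaf (.leaf 0)) (.node (.leaf q768_63) (.leaf (.leaf 0)))) (.node (.node (.leaf q512_63) (.leaf (.leaf 0))) (.node (.leaf q896_127) (.leaf (.leaf 0))))))) (.node (.node (.node (.node (.node (.leaf q0_127) (.leaf (.leaf 0))) (.node (.leaf q512_255) (.leaf (.leaf 0)))) (.node (.leaf (.leaf 0)) (.node (.leaf q769_63) (.leaf (.leaf 0))))) (.node (.node (.node (.leaf q0_383) (.leaf (.leaf 0))) (.leaf (.leaf 0))) (.node (.leaf (.leaf 0)) (.node (.leaf q896_63) (.leaf (.leaf 0)))))) (.node (.node (.node (.node (.leaf q0_255) (.leaf (.leaf 0))) (.node (.leaf q704_63) (.leaf (.leaf 0)))) (.node (.leaf (.leaf 0)) (.node (.leaf q788_63) (.leaf (.leaf 0))))) (.node (.node (.node (.leaf q192_63) (.leaf (.leaf 0))) (.node (.leaf q768_127) (.leaf (.leaf 0)))) (.node (.node (.leaf q512_127) (.leaf (.leaf 0))) (.leaf (.leaf 0)))))))))))))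

end K4m.Ev.PA
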