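import Pool.Agent.Lib.MP_392c14_co.Ev.ChkG
import Pool.Agent.Lib.MP_392c14_co.Ev.MaskL
import Pool.Agent.Lib.MP_392c14_co.Ev.FiveT
import Pool.Agent.Lib.MP_392c14_co.Ev.PA.Tabs
import Pool.Agent.Lib.MP_392c14_co.Ev.PA.QTree
import Pool.Agent.Lib.MP_392c14_co.Ev.PA.Q3
import Pool.Agent.Lib.MP_392c14_co.Ev.PA.Mu
import Pool.Agent.Lib.MP_392c14_co.Ev.PA.Cuts
set_option autoImplicit false
set_option maxRecDepth 1000000
set_option linter.all false

namespace K4m.Ev.PA

/-- the test of one code -/
noncomputable def testL (m : Nat) : Bool :=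
  evalR 72 4722366482869645213696 tabQ tabC 72 4722366482869645213696 tI3 tabQ3 cutL 80 1208925819614629174706176 tMu 604462909807314587353088 masks5 masks3L masksCL masksDL
    (force (fun pp => force (fun pn => chkR 1 1 2361183241434822606848 2361183241434822606848 604462909807314587353088 28572 100000 6485302710361778590 1 3 7566036406477508928 22698131394197640816 pp pn) ((fun _ => 0) m)) ((fun m => 144 * 4503599627370496 * popc 35 m 0) m)) m

end K4m.Ev.PA
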